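import Pool.Agent.H335R2.Abc.Defs

set_option autoImplicit false

open Finset

namespace Pool.Agent.H335R2.Abc

theorem Fiber_cross_ne {a b c d : ℕ} (ha : 0 < a) (h1 : Nat.Coprime a b)
    (h2 : Nat.Coprime c d) (h : a * d = c * b) : a = c ∧ b = d := by
  have e1 : a ∣ c := h1.dvd_of_dvd_mul_right (Dvd.intro _ h)
  have e2 : c ∣ a := h2.dvd_of_dvd_mul_right (Dvd.intro _ h.symm)
  have e3 : a = c := Nat.dvd_antisymm e1 e2
  subst e3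
  exact ⟨rfl, (Nat.eq_of_mul_eq_mul_left ha h).symm⟩

/-- spacing of reduced fractions whose cross difference is divisible by `m` -/
theorem Fiber_spacing (m V : ℕ) (hm : 0 < m) (F : Finset (ℕ × ℕ)) (t ℓ : ℝ) (hℓ : 0 ≤ ℓ)
    (hpos : ∀ q ∈ F, 0 < q.1 ∧ 0 < q.2 ∧ q.2 ≤ V)
    (hcop : ∀ q ∈ F, Nat.Coprime q.1 q.2)
    (hrat : ∀ q ∈ F, t ≤ (q.1 : ℝ) / q.2 ∧ (q.1 : ℝ) / q.2 ≤ t + ℓ)
    (hmod : ∀ q ∈ F, ∀ q' ∈ F, (m : ℤ) ∣ (q.1 : ℤ) * q'.2 - q'.1 * q.2) :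
    (F.card : ℝ) ≤ 1 + ℓ * V ^ 2 / m := by
  have hm0 : (0 : ℝ) < m := by exact_mod_cast hm
  rcases F.eq_empty_or_nonempty with rfl | ⟨q1, hq1⟩
  · rw [card_empty]
    push_cast
    positivity
  have hV : (0 : ℝ) < V := by
    have := hpos q1 hq1
    exact_mod_cast lt_of_lt_of_le this.2.1 this.2.2
  set d : ℝ := m / V ^ 2 with hd
  have hd0 : 0 < d := by positivity
  -- distinct elements have far ratios
  have hfar : ∀ q ∈ F, ∀ q' ∈ F, q ≠ q' → d ≤ |(q.1 : ℝ) / q.2 - (q'.1 : ℝ) / q'.2| := by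
    intro q hq q' hq' hne
    obtain ⟨a1, a2, a3⟩ := hpos q hq
    obtain ⟨b1, b2, b3⟩ := hpos q' hq'
    have hne0 : (q.1 : ℤ) * q'.2 - q'.1 * q.2 ≠ 0 := by
      intro h0
      have h1 : q.1 * q'.2 = q'.1 * q.2 := by
        have : (q.1 : ℤ) * q'.2 = q'.1 * q.2 := by linarith
        exact_mod_cast this
      obtain ⟨e1, e2⟩ := Fiber_cross_ne a1 (hcop q hq) (hcop q' hq') h1
      exact hne (Prod.ext e1 e2)
    have h2 : (m : ℤ) ≤ |(q.1 : ℤ) * q'.2 - q'.1 * q.2| := by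
      have := Int.le_of_dvd (abs_pos.2 hne0) ((dvd_abs _ _).2 (hmod q hq q' hq'))
      exact this
    have h3 : (m : ℝ) ≤ |(q.1 : ℝ) * q'.2 - q'.1 * q.2| := by exact_mod_cast h2
    have c1 : (0 : ℝ) < q.2 := by exact_mod_cast a2
    have c2 : (0 : ℝ) < q'.2 := by exact_mod_cast b2
    have c3 : (q.2 : ℝ) ≤ V := by exact_mod_cast a3
    have c4 : (q'.2 : ℝ) ≤ V := by exact_mod_cast b3
    have h4 : (q.1 : ℝ) / q.2 - (q'.1 : ℝ) / q'.2 =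
        ((q.1 : ℝ) * q'.2 - q'.1 * q.2) / (q.2 * q'.2) := by
      field_simp
    rw [h4, abs_div, abs_of_pos (mul_pos c1 c2), hd]
    calc (m : ℝ) / V ^ 2 ≤ m / (q.2 * q'.2) := by
          apply div_le_div_of_nonneg_left hm0.le (mul_pos c1 c2)
          rw [pow_two]
          exact mul_le_mul c3 c4 c2.le hV.le
      _ ≤ _ := div_le_div_of_nonneg_right h3 (mul_pos c1 c2).le
  have hinj : Set.InjOn (fun q : ℕ × ℕ => ⌊((q.1 : ℝ) / q.2 - t) / d⌋₊) (F : Set (ℕ × ℕ)) := by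
    intro q hq q' hq' h
    by_contra hne
    have h1 := hfar q hq q' hq' hne
    simp only at h
    have p1 : 0 ≤ ((q.1 : ℝ) / q.2 - t) / d := div_nonneg (by linarith [(hrat q hq).1]) hd0.le
    have p2 : 0 ≤ ((q'.1 : ℝ) / q'.2 - t) / d := div_nonneg (by linarith [(hrat q' hq').1]) hd0.le
    have f1 := Nat.floor_le p1
    have f2 := Nat.floor_le p2
    have g1 := Nat.lt_floor_add_one (((q.1 : ℝ) / q.2 - t) / d)
    have g2 := Nat.lt_floor_add_one (((q'.1 : ℝ) / q'.2 - t) / d)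
    rw [h] at f1 g1
    have h5 : |((q.1 : ℝ) / q.2 - t) / d - ((q'.1 : ℝ) / q'.2 - t) / d| < 1 := by
      rw [abs_lt]
      constructor <;> linarith
    have h6 : ((q.1 : ℝ) / q.2 - t) / d - ((q'.1 : ℝ) / q'.2 - t) / d =
        ((q.1 : ℝ) / q.2 - (q'.1 : ℝ) / q'.2) / d := by ring
    rw [h6, abs_div, abs_of_pos hd0, div_lt_one hd0] at h5
    linarith
  have hmaps : ∀ q ∈ F, ⌊((q.1 : ℝ) / q.2 - t) / d⌋₊ ∈ range (⌊ℓ / d⌋₊ + 1) := by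
    intro q hq
    rw [mem_range, Nat.lt_succ_iff]
    apply Nat.floor_le_floor
    apply div_le_div_of_nonneg_right _ hd0.le
    linarith [(hrat q hq).2]
  have hcard := Finset.card_le_card_of_injOn _ hmaps hinj
  rw [card_range] at hcard
  have h7 : (F.card : ℝ) ≤ (⌊ℓ / d⌋₊ : ℝ) + 1 := by exact_mod_cast hcard
  have h8 : (⌊ℓ / d⌋₊ : ℝ) ≤ ℓ / d := Nat.floor_le (by positivity)
  have h9 : ℓ / d = ℓ * V ^ 2 / m := by
    rw [hd]
    field_simp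
  linarith

/-! T1: fibre lemma -/
theorem fiber_card (g m V : ℕ) (hm : 0 < m) (S : Finset (ℕ × ℕ)) (t ℓ : ℝ) (hℓ : 0 ≤ ℓ)
    (hpos : ∀ q ∈ S, 0 < q.1 ∧ 0 < q.2 ∧ q.2 ≤ V)
    (hcop : ∀ q ∈ S, Nat.Coprime q.1 q.2 ∧ Nat.Coprime m q.1 ∧ Nat.Coprime m q.2)
    (hrat : ∀ q ∈ S, t ≤ (q.1 : ℝ) / q.2 ∧ (q.1 : ℝ) / q.2 ≤ t + ℓ)
    (hmod : ∀ q ∈ S, ∀ q' ∈ S, (q.1 * q'.2) ^ g ≡ (q'.1 * q.2) ^ g [MOD m]) :
    (S.card : ℝ) ≤ nroots g m * (1 + ℓ * V ^ 2 / m) := by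
  have hm0 : (0 : ℝ) < m := by exact_mod_cast hm
  rcases S.eq_empty_or_nonempty with rfl | ⟨q0, hq0⟩
  · rw [card_empty]
    push_cast
    positivity
  have : NeZero m := ⟨hm.ne'⟩
  set ω : ℕ × ℕ → ZMod m := fun q =>
    ((q.1 * q0.2 : ℕ) : ZMod m) * ((q0.1 * q.2 : ℕ) : ZMod m)⁻¹ with hω
  have hinv : ∀ q ∈ S, ((q0.1 * q.2 : ℕ) : ZMod m) * ((q0.1 * q.2 : ℕ) : ZMod m)⁻¹ = 1 := by
    intro q hq
    apply ZMod.coe_mul_inv_eq_one
    exact (Nat.Coprime.mul_right (hcop q0 hq0).2.1 (hcop q hq).2.2).symm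
  have hmaps : ∀ q ∈ S, (ω q).val ∈ (Finset.range m).filter (fun t => t ^ g ≡ 1 [MOD m]) := by
    intro q hq
    rw [mem_filter, mem_range]
    refine ⟨ZMod.val_lt _, ?_⟩
    rw [← ZMod.natCast_eq_natCast_iff]
    push_cast
    rw [ZMod.natCast_zmod_val]
    have h1 := (ZMod.natCast_eq_natCast_iff _ _ _).2 (hmod q hq q0 hq0)
    rw [Nat.cast_pow, Nat.cast_pow] at h1
    rw [hω]
    simp only
    rw [mul_pow, h1, ← mul_pow, hinv q hq, one_pow]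
  rw [Finset.card_eq_sum_card_fiberwise hmaps]
  push_cast
  rw [nroots, ← nsmul_eq_mul]
  refine Finset.sum_le_card_nsmul _ _ _ fun b hb => ?_
  refine Fiber_spacing m V hm _ t ℓ hℓ ?_ ?_ ?_ ?_
  · intro q hq
    exact hpos q (mem_filter.1 hq).1
  · intro q hq
    exact (hcop q (mem_filter.1 hq).1).1
  · intro q hq
    exact hrat q (mem_filter.1 hq).1
  · intro q hq q' hq'
    rw [mem_filter] at hq hq'
    have h1 : ω q = ω q' := ZMod.val_injective m (hq.2.trans hq'.2.symm)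
    have i1 := hinv q hq.1
    have i2 := hinv q' hq'.1
    have h2 : ((q.1 * q0.2 : ℕ) : ZMod m) * ((q0.1 * q'.2 : ℕ) : ZMod m) =
        ((q'.1 * q0.2 : ℕ) : ZMod m) * ((q0.1 * q.2 : ℕ) : ZMod m) := by
      simp only [hω] at h1
      calc ((q.1 * q0.2 : ℕ) : ZMod m) * ((q0.1 * q'.2 : ℕ) : ZMod m)
          = (((q.1 * q0.2 : ℕ) : ZMod m) * ((q0.1 * q.2 : ℕ) : ZMod m)⁻¹) *
            ((q0.1 * q.2 : ℕ) : ZMod m) * ((q0.1 * q'.2 : ℕ) : ZMod m) := by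
            linear_combination (-((q.1 * q0.2 : ℕ) : ZMod m) * ((q0.1 * q'.2 : ℕ) : ZMod m)) * i1
        _ = (((q'.1 * q0.2 : ℕ) : ZMod m) * ((q0.1 * q'.2 : ℕ) : ZMod m)⁻¹) *
            ((q0.1 * q.2 : ℕ) : ZMod m) * ((q0.1 * q'.2 : ℕ) : ZMod m) := by rw [h1]
        _ = _ := by
            linear_combination (((q'.1 * q0.2 : ℕ) : ZMod m) * ((q0.1 * q.2 : ℕ) : ZMod m)) * i2
    have u1 : IsUnit ((q0.1 : ℕ) : ZMod m) := (ZMod.isUnit_iff_coprime _ _).2 (hcop q0 hq0).2.1.symm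
    have u2 : IsUnit ((q0.2 : ℕ) : ZMod m) := (ZMod.isUnit_iff_coprime _ _).2 (hcop q0 hq0).2.2.symm
    have h3 : ((q.1 : ℕ) : ZMod m) * (q'.2 : ℕ) = (q'.1 : ℕ) * (q.2 : ℕ) := by
      push_cast at h2
      apply (u1.mul u2).mul_left_cancel
      linear_combination h2
    rw [← ZMod.intCast_zmod_eq_zero_iff_dvd]
    push_cast
    rw [h3, sub_self]

end Pool.Agent.H335R2.Abc
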