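import Pool.Agent.H335R2.Abc.Defs

set_option autoImplicit false

open Finset

namespace Pool.Agent.H335R2.Abc

lemma mem_prS {S : Finset ℕ} {n p : ℕ} :
    p ∈ prS S n ↔ p ∈ n.primeFactors ∧ cls (n.factorization p) ∈ S := by
  unfold prS; rw [mem_filter]

lemma prS_prime {S : Finset ℕ} {n p : ℕ} (h : p ∈ prS S n) : p.Prime :=
  Nat.prime_of_mem_primeFactors (mem_prS.mp h).1

lemma prS_fact_pos {S : Finset ℕ} {n p : ℕ} (h : p ∈ prS S n) : 1 ≤ n.factorization p := by
  have h1 := (mem_prS.mp h).1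
  rw [Nat.mem_primeFactors] at h1
  exact h1.1.factorization_pos_of_dvd h1.2.2 h1.2.1

lemma prS_subset (S : Finset ℕ) (n : ℕ) : prS S n ⊆ n.primeFactors := filter_subset _ _

lemma cls_mem_U {v : ℕ} (h : 1 ≤ v) : cls v ∈ U := by
  unfold cls U
  simp only [mem_insert, mem_singleton]
  omega

theorem part_pos (S : Finset ℕ) (n : ℕ) : 0 < part S n :=
  prod_pos (fun p hp => pow_pos (prS_prime hp).pos _)

theorem rpart_pos (S : Finset ℕ) (n : ℕ) : 0 < rpart S n :=
  prod_pos (fun p hp => (prS_prime hp).pos)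

theorem gpart_pos (g : ℕ) (S : Finset ℕ) (n : ℕ) : 0 < gpart g S n :=
  prod_pos (fun p hp => pow_pos (prS_prime hp).pos _)

lemma prod_primeFactors_pow {n : ℕ} (hn : n ≠ 0) :
    ∏ p ∈ n.primeFactors, p ^ n.factorization p = n := by
  conv_rhs => rw [← Nat.prod_factorization_pow_eq_self hn]
  rfl

theorem part_dvd (S : Finset ℕ) (n : ℕ) : part S n ∣ n := by
  rcases eq_or_ne n 0 with rfl | hn
  · exact dvd_zero _
  · calc part S n ∣ ∏ p ∈ n.primeFactors, p ^ n.factorization p :=
        prod_dvd_prod_of_subset _ _ _ (prS_subset S n)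
      _ = n := prod_primeFactors_pow hn

theorem rpart_dvd (S : Finset ℕ) (n : ℕ) : rpart S n ∣ n := by
  refine dvd_trans ?_ (part_dvd S n)
  unfold rpart part
  apply prod_dvd_prod_of_dvd
  intro p hp
  exact dvd_pow_self p (by have := prS_fact_pos hp; omega)

theorem gpart_dvd (g : ℕ) (S : Finset ℕ) (n : ℕ) : gpart g S n ∣ n := by
  refine dvd_trans ?_ (part_dvd S n)
  unfold gpart part
  apply prod_dvd_prod_of_dvd
  intro p hp
  exact pow_dvd_pow p (Nat.div_le_self _ _)

theorem part_mul (S : Finset ℕ) (n : ℕ) (hn : n ≠ 0) : part (U \ S) n * part S n = n := by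
  have h1 : prS (U \ S) n = n.primeFactors.filter (fun p => ¬ cls (n.factorization p) ∈ S) := by
    unfold prS
    apply filter_congr
    intro p hp
    rw [mem_sdiff]
    have : cls (n.factorization p) ∈ U := by
      apply cls_mem_U
      rw [Nat.mem_primeFactors] at hp
      exact hp.1.factorization_pos_of_dvd hp.2.2 hp.2.1
    tauto
  unfold part
  rw [h1, mul_comm]
  unfold prS
  rw [prod_filter_mul_prod_filter_not]
  exact prod_primeFactors_pow hn

lemma primeFactors_part (S : Finset ℕ) (n : ℕ) : (part S n).primeFactors = prS S n := by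
  ext q
  rw [Nat.mem_primeFactors]
  constructor
  · rintro ⟨hq, hd, _⟩
    unfold part at hd
    rw [Prime.dvd_finset_prod_iff hq.prime] at hd
    obtain ⟨p, hp, hd⟩ := hd
    have h1 := hq.dvd_of_dvd_pow hd
    rw [Nat.prime_dvd_prime_iff_eq hq (prS_prime hp)] at h1
    rw [h1]; exact hp
  · intro hq
    refine ⟨prS_prime hq, ?_, (part_pos S n).ne'⟩
    unfold part
    refine dvd_trans (dvd_pow_self q (by have := prS_fact_pos hq; omega))
      (dvd_prod_of_mem _ hq)

theorem rad_part (S : Finset ℕ) (n : ℕ) : rad (part S n) = rpart S n := by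
  unfold rad rpart
  rw [primeFactors_part]

lemma valid_dvd {g : ℕ} {S : Finset ℕ} (hS : Valid g S) {n p : ℕ} (hp : p ∈ prS S n) :
    g ∣ n.factorization p := by
  rcases hS with rfl | ⟨_, h⟩
  · exact one_dvd _
  · have h1 := h _ (mem_prS.mp hp).2
    unfold cls at h1
    have h2 : min (n.factorization p) 5 = n.factorization p := by omega
    rw [h2] at h1
    exact h1.1

theorem gpart_pow (g : ℕ) (S : Finset ℕ) (hS : Valid g S) (n : ℕ) :
    gpart g S n ^ g = part S n := by
  unfold gpart part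
  rw [← prod_pow]
  apply prod_congr rfl
  intro p hp
  rw [← pow_mul, Nat.div_mul_cancel (valid_dvd hS hp)]

lemma sum_prS (S : Finset ℕ) (n : ℕ) (f : ℕ → ℝ) :
    ∑ p ∈ prS S n, f p = ∑ k ∈ S, ∑ p ∈ prS {k} n, f p := by
  rw [← sum_fiberwise_of_maps_to (s := prS S n) (t := S)
    (g := fun p => cls (n.factorization p)) (fun p hp => (mem_prS.mp hp).2)]
  apply sum_congr rfl
  intro k hk
  apply sum_congr _ (fun _ _ => rfl)
  ext p
  rw [mem_filter, mem_prS, mem_prS, mem_singleton]
  constructor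
  · rintro ⟨⟨h1, _⟩, h3⟩; exact ⟨h1, h3⟩
  · rintro ⟨h1, h2⟩; exact ⟨⟨h1, h2 ▸ hk⟩, h2⟩

theorem log_part (S : Finset ℕ) (n : ℕ) : Real.log (part S n) = ∑ k ∈ S, sz k n := by
  unfold part sz
  push_cast
  rw [Real.log_prod, ← sum_prS]
  · apply sum_congr rfl
    intro p _
    rw [Real.log_pow]
  · intro p hp
    have := (prS_prime hp).pos
    positivity

theorem log_rpart (S : Finset ℕ) (n : ℕ) : Real.log (rpart S n) = ∑ k ∈ S, rd k n := by
  unfold rpart rd
  push_cast
  rw [Real.log_prod, ← sum_prS]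
  intro p hp
  have := (prS_prime hp).pos
  positivity

theorem log_gpart (g : ℕ) (S : Finset ℕ) (hS : Valid g S) (n : ℕ) :
    Real.log (gpart g S n) = (∑ k ∈ S, sz k n) / g := by
  have hg : (g : ℝ) ≠ 0 := by
    have : 1 ≤ g := by
      rcases hS with rfl | ⟨h, _⟩
      · exact le_refl _
      · exact h
    positivity
  rw [eq_div_iff hg, ← log_part, ← gpart_pow g S hS n]
  push_cast
  rw [Real.log_pow]; ring

lemma prS_U (n : ℕ) : prS U n = n.primeFactors := by
  unfold prS
  rw [filter_eq_self]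
  intro p hp
  apply cls_mem_U
  rw [Nat.mem_primeFactors] at hp
  exact hp.1.factorization_pos_of_dvd hp.2.2 hp.2.1

theorem log_eq (n : ℕ) (hn : n ≠ 0) : Real.log n = ∑ k ∈ U, sz k n := by
  rw [← log_part]
  congr 2
  unfold part
  rw [prS_U, prod_primeFactors_pow hn]

theorem log_rad (n : ℕ) : Real.log (rad n) = ∑ k ∈ U, rd k n := by
  rw [← log_rpart]
  unfold rad rpart
  rw [prS_U]

theorem sz_eq (k n : ℕ) (hk : k ≤ 4) : sz k n = k * rd k n := by
  unfold sz rd
  rw [mul_sum]
  apply sum_congr rfl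
  intro p hp
  have h1 := (mem_prS.mp hp).2
  rw [mem_singleton] at h1
  unfold cls at h1
  have : n.factorization p = k := by omega
  rw [this]

theorem sz_ge (n : ℕ) : 5 * rd 5 n ≤ sz 5 n := by
  unfold sz rd
  rw [mul_sum]
  apply sum_le_sum
  intro p hp
  have h1 := (mem_prS.mp hp).2
  rw [mem_singleton] at h1
  unfold cls at h1
  have h2 : 5 ≤ n.factorization p := by omega
  have h3 : (5 : ℝ) ≤ (n.factorization p : ℝ) := by exact_mod_cast h2
  have h4 : 0 ≤ Real.log p := Real.log_natCast_nonneg p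
  nlinarith

theorem rd_nonneg (k n : ℕ) : 0 ≤ rd k n :=
  sum_nonneg (fun p _ => Real.log_natCast_nonneg p)

theorem rad_mul3 (a b c : ℕ) (hab : Nat.Coprime a b) (hac : Nat.Coprime a c) (hbc : Nat.Coprime b c)
    (ha : a ≠ 0) (hb : b ≠ 0) (hc : c ≠ 0) :
    rad (a * b * c) = rad a * rad b * rad c := by
  unfold rad
  have h1 : Nat.Coprime (a * b) c := Nat.Coprime.mul_left hac hbc
  rw [h1.primeFactors_mul, hab.primeFactors_mul, prod_union, prod_union]
  · exact hab.disjoint_primeFactors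
  · rw [← hab.primeFactors_mul]; exact h1.disjoint_primeFactors

end Pool.Agent.H335R2.Abc
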