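import Pool.Agent.H335R2.Abc.Defs

set_option autoImplicit false

open Finset

namespace Pool.Agent.H335R2.Abc

namespace RadSumAux

/-- `n^(-ε) / rad n` -/
noncomputable def fr (ε : ℝ) (n : ℕ) : ℝ := (n : ℝ) ^ (-ε) / rad n

lemma rad_pos' (n : ℕ) : 0 < rad n :=
  prod_pos (fun _ hp => (Nat.prime_of_mem_primeFactors hp).pos)

lemma fr_nonneg (ε : ℝ) (n : ℕ) : 0 ≤ fr ε n := by
  unfold fr; positivity

lemma fr_one (ε : ℝ) : fr ε 1 = 1 := by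
  unfold fr rad; simp

lemma fr_mul (ε : ℝ) {m n : ℕ} (h : Nat.Coprime m n) : fr ε (m * n) = fr ε m * fr ε n := by
  unfold fr rad
  rw [h.primeFactors_mul, prod_union h.disjoint_primeFactors]
  push_cast
  rw [Real.mul_rpow (by positivity) (by positivity)]
  field_simp

lemma fr_pow (ε : ℝ) {p : ℕ} (hp : p.Prime) (k : ℕ) :
    fr ε (p ^ (k + 1)) = ((p : ℝ)⁻¹ * (p : ℝ) ^ (-ε)) * ((p : ℝ) ^ (-ε)) ^ k := by
  unfold fr rad
  rw [Nat.primeFactors_prime_pow (by omega) hp, prod_singleton]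
  push_cast
  rw [← Real.rpow_natCast_mul (by positivity), mul_comm ((k + 1 : ℕ) : ℝ) (-ε),
    Real.rpow_mul_natCast (by positivity)]
  rw [pow_succ]
  ring

lemma r_lt (ε : ℝ) (hε : 0 < ε) {p : ℕ} (hp : p.Prime) :
    0 < (p : ℝ) ^ (-ε) ∧ (p : ℝ) ^ (-ε) ≤ (2 : ℝ) ^ (-ε) ∧ (2 : ℝ) ^ (-ε) < 1 := by
  have h2 : (2 : ℝ) ≤ p := by exact_mod_cast hp.two_le
  refine ⟨by positivity, ?_, ?_⟩
  · exact Real.rpow_le_rpow_of_nonpos (by norm_num) h2 (by linarith)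
  · exact Real.rpow_lt_one_of_one_lt_of_neg (by norm_num) (by linarith)

lemma fr_summable (ε : ℝ) (hε : 0 < ε) {p : ℕ} (hp : p.Prime) :
    Summable (fun k : ℕ => fr ε (p ^ k)) := by
  obtain ⟨h0, h1, h2⟩ := r_lt ε hε hp
  rw [← summable_nat_add_iff 1]
  simp_rw [fr_pow ε hp]
  exact (summable_geometric_of_lt_one h0.le (h1.trans_lt h2)).mul_left _

lemma fr_tsum (ε : ℝ) (hε : 0 < ε) {p : ℕ} (hp : p.Prime) :
    ∑' k : ℕ, fr ε (p ^ k) ≤ Real.exp ((1 - (2 : ℝ) ^ (-ε))⁻¹ * (1 / (p : ℝ) ^ (1 + ε))) := by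
  obtain ⟨h0, h1, h2⟩ := r_lt ε hε hp
  have hp0 : (0 : ℝ) < p := by exact_mod_cast hp.pos
  rw [(fr_summable ε hε hp).tsum_eq_zero_add]
  simp_rw [fr_pow ε hp]
  rw [tsum_mul_left, tsum_geometric_of_lt_one h0.le (h1.trans_lt h2), pow_zero, fr_one]
  have h3 : (1 - (p : ℝ) ^ (-ε))⁻¹ ≤ (1 - (2 : ℝ) ^ (-ε))⁻¹ :=
    inv_anti₀ (by linarith) (by linarith)
  have h4 : (p : ℝ)⁻¹ * (p : ℝ) ^ (-ε) = 1 / (p : ℝ) ^ (1 + ε) := by
    rw [Real.rpow_add hp0, Real.rpow_one, Real.rpow_neg hp0.le]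
    field_simp
  rw [h4]
  calc 1 + 1 / (p : ℝ) ^ (1 + ε) * (1 - (p : ℝ) ^ (-ε))⁻¹
      ≤ 1 + 1 / (p : ℝ) ^ (1 + ε) * (1 - (2 : ℝ) ^ (-ε))⁻¹ := by
        have : 0 ≤ 1 / (p : ℝ) ^ (1 + ε) := by positivity
        nlinarith [mul_le_mul_of_nonneg_left h3 this]
    _ = (1 - (2 : ℝ) ^ (-ε))⁻¹ * (1 / (p : ℝ) ^ (1 + ε)) + 1 := by ring
    _ ≤ _ := Real.add_one_le_exp _

end RadSumAux

open RadSumAux in
theorem sum_inv_rad (ε : ℝ) (hε : 0 < ε) :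
    ∃ C : ℝ, 0 < C ∧ ∀ X : ℕ, 1 ≤ X → ∑ n ∈ Icc 1 X, (1 : ℝ) / rad n ≤ C * (X : ℝ) ^ ε := by
  set c : ℝ := (1 - (2 : ℝ) ^ (-ε))⁻¹ with hc
  have hc0 : 0 < c := by
    have : (2 : ℝ) ^ (-ε) < 1 := Real.rpow_lt_one_of_one_lt_of_neg (by norm_num) (by linarith)
    rw [hc]; apply inv_pos.mpr; linarith
  have hsum : Summable (fun n : ℕ => 1 / (n : ℝ) ^ (1 + ε)) :=
    Real.summable_one_div_nat_rpow.mpr (by linarith)
  set S : ℝ := ∑' n : ℕ, 1 / (n : ℝ) ^ (1 + ε) with hS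
  refine ⟨Real.exp (c * S), Real.exp_pos _, fun X hX => ?_⟩
  have hX0 : (0 : ℝ) < X := by exact_mod_cast hX
  have h1 : ∀ n ∈ Icc 1 X, (1 : ℝ) / rad n ≤ (X : ℝ) ^ ε * fr ε n := by
    intro n hn
    rw [mem_Icc] at hn
    have hn0 : (0 : ℝ) < n := by exact_mod_cast hn.1
    have hnX : (n : ℝ) ≤ X := by exact_mod_cast hn.2
    have h2 : (n : ℝ) ^ ε ≤ (X : ℝ) ^ ε := Real.rpow_le_rpow hn0.le hnX hε.le
    have h3 : (1 : ℝ) / rad n = (n : ℝ) ^ ε * fr ε n := by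
      unfold fr
      rw [Real.rpow_neg hn0.le]
      have : (n : ℝ) ^ ε ≠ 0 := by positivity
      field_simp
    rw [h3]
    exact mul_le_mul_of_nonneg_right h2 (fr_nonneg ε n)
  have h4 := (EulerProduct.summable_and_hasSum_smoothNumbers_prod_primesBelow_tsum
    (fr_one ε) (fun {m n} h => fr_mul ε h)
    (fun {p} hp => by
      have := fr_summable ε hε hp
      refine this.congr (fun k => ?_)
      rw [Real.norm_of_nonneg (fr_nonneg ε _)]) (X + 1)).2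
  have h4' : HasSum ((fun m : ℕ => fr ε m) ∘ (Subtype.val : (X + 1).smoothNumbers → ℕ))
      (∏ p ∈ (X + 1).primesBelow, ∑' n : ℕ, fr ε (p ^ n)) := h4
  rw [hasSum_subtype_iff_indicator] at h4'
  have h5 : ∑ n ∈ Icc 1 X, fr ε n ≤ ∏ p ∈ (X + 1).primesBelow, ∑' n : ℕ, fr ε (p ^ n) := by
    have h6 : ∑ n ∈ Icc 1 X, fr ε n =
        ∑ n ∈ Icc 1 X, ((X + 1).smoothNumbers).indicator (fun m : ℕ => fr ε m) n := by
      apply sum_congr rfl
      intro n hn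
      rw [mem_Icc] at hn
      rw [Set.indicator_of_mem]
      rw [Nat.mem_smoothNumbers_iff_forall_le]
      exact ⟨by omega, fun p hp _ _ => by omega⟩
    rw [h6]
    apply sum_le_hasSum _ _ h4'
    intro n _
    exact Set.indicator_nonneg (fun m _ => fr_nonneg ε m) n
  have h7 : ∏ p ∈ (X + 1).primesBelow, ∑' n : ℕ, fr ε (p ^ n) ≤ Real.exp (c * S) := by
    calc ∏ p ∈ (X + 1).primesBelow, ∑' n : ℕ, fr ε (p ^ n)
        ≤ ∏ p ∈ (X + 1).primesBelow, Real.exp (c * (1 / (p : ℝ) ^ (1 + ε))) := by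
          apply prod_le_prod
          · intro p _
            exact tsum_nonneg (fun k => fr_nonneg ε _)
          · intro p hp
            exact fr_tsum ε hε (Nat.prime_of_mem_primesBelow hp)
      _ = Real.exp (c * ∑ p ∈ (X + 1).primesBelow, (1 / (p : ℝ) ^ (1 + ε))) := by
          rw [← Real.exp_sum, mul_sum]
      _ ≤ Real.exp (c * S) := by
          apply Real.exp_le_exp.mpr
          apply mul_le_mul_of_nonneg_left _ hc0.le
          exact hsum.sum_le_tsum _ (fun n _ => by positivity)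
  calc ∑ n ∈ Icc 1 X, (1 : ℝ) / rad n ≤ ∑ n ∈ Icc 1 X, (X : ℝ) ^ ε * fr ε n := sum_le_sum h1
    _ = (X : ℝ) ^ ε * ∑ n ∈ Icc 1 X, fr ε n := by rw [mul_sum]
    _ ≤ (X : ℝ) ^ ε * Real.exp (c * S) :=
        mul_le_mul_of_nonneg_left (h5.trans h7) (by positivity)
    _ = _ := by ring

end Pool.Agent.H335R2.Abc
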