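import Pool.Agent.H335R2.Abc.Defs
import Pool.Agent.H510R2.Div

set_option autoImplicit false

open Finset

namespace Pool.Agent.H335R2.Abc

namespace T3

/-- in a finite commutative group with a cyclic subgroup of index `k`, the number of solutions of
`x ^ g = 1` is at most `k * g` -/
theorem card_roots_group {G : Type*} [CommGroup G] [Fintype G] [DecidableEq G] (H : Subgroup G)
    [IsCyclic H] (k g : ℕ) (hk : H.index = k) (hg : 0 < g) :
    (univ.filter (fun x : G => x ^ g = 1)).card ≤ g * k := by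
  classical
  have hfib : ∀ b ∈ (univ.filter (fun x : G => x ^ g = 1)).image (fun x : G => (x : G ⧸ H)),
      ((univ.filter (fun x : G => x ^ g = 1)).filter (fun x : G => (x : G ⧸ H) = b)).card ≤ g := by
    intro b hb
    rw [mem_image] at hb
    obtain ⟨x₀, hx₀, rfl⟩ := hb
    rw [mem_filter] at hx₀
    have : Fintype H := Fintype.ofFinite H
    have hcyc : (univ.filter (fun a : H => a ^ g = 1)).card ≤ g := IsCyclic.card_pow_eq_one_le hg
    refine le_trans (Finset.card_le_card_of_injOn
      (fun x : G => if h : x₀⁻¹ * x ∈ H then (⟨x₀⁻¹ * x, h⟩ : H) else 1) ?_ ?_) hcyc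
    · intro x hx
      simp only [coe_filter, mem_filter, mem_univ, true_and, Set.mem_ofPred_eq] at hx ⊢
      have h1 : x₀⁻¹ * x ∈ H := by
        have := QuotientGroup.eq.mp hx.2.symm
        exact this
      rw [dif_pos h1]
      ext
      push_cast
      rw [mul_pow, hx.1, inv_pow, hx₀.2]
      simp
    · intro x hx y hy hxy
      simp only [coe_filter, mem_filter, mem_univ, true_and, Set.mem_ofPred_eq] at hx hy
      have h1 : x₀⁻¹ * x ∈ H := QuotientGroup.eq.mp hx.2.symm
      have h2 : x₀⁻¹ * y ∈ H := QuotientGroup.eq.mp hy.2.symm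
      simp only at hxy
      rw [dif_pos h1, dif_pos h2] at hxy
      have h3 := congrArg Subtype.val hxy
      simp only at h3
      exact mul_left_cancel h3
  have h1 := Finset.card_le_mul_card_image (f := fun x : G => (x : G ⧸ H))
    (univ.filter (fun x : G => x ^ g = 1)) g hfib
  refine h1.trans (Nat.mul_le_mul_left g ?_)
  have : Fintype (G ⧸ H) := Fintype.ofFinite _
  calc ((univ.filter (fun x : G => x ^ g = 1)).image (fun x : G => (x : G ⧸ H))).card
      ≤ Fintype.card (G ⧸ H) := Finset.card_le_univ _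
    _ = k := by rw [← hk, Subgroup.index, Nat.card_eq_fintype_card]

/-- number of `g`-th roots of unity in `ZMod m` -/
noncomputable def R (g m : ℕ) : ℕ := Nat.card {t : ZMod m // t ^ g = 1}

theorem nroots_eq (g m : ℕ) (hm : 1 ≤ m) : nroots g m = R g m := by
  have : NeZero m := ⟨by omega⟩
  unfold nroots R
  classical
  rw [Nat.card_eq_fintype_card, Fintype.card_subtype]
  refine Finset.card_bij (fun t _ => (t : ZMod m)) ?_ ?_ ?_
  · intro t ht
    rw [mem_filter] at ht ⊢
    refine ⟨mem_univ _, ?_⟩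
    have := (ZMod.natCast_eq_natCast_iff (t ^ g) 1 m).mpr ht.2
    push_cast at this
    exact this
  · intro t ht s hs hts
    rw [mem_filter, mem_range] at ht hs
    have h1 := (ZMod.natCast_eq_natCast_iff t s m).mp hts
    exact Nat.ModEq.eq_of_lt_of_lt h1 ht.1 hs.1
  · intro t ht
    rw [mem_filter] at ht
    refine ⟨t.val, ?_, ZMod.natCast_zmod_val t⟩
    rw [mem_filter, mem_range]
    refine ⟨ZMod.val_lt t, ?_⟩
    rw [← ZMod.natCast_eq_natCast_iff]
    push_cast
    rw [ZMod.natCast_zmod_val]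
    exact ht.2

theorem R_le_units (g m : ℕ) (hm : 1 ≤ m) (hg : 1 ≤ g) [DecidableEq (ZMod m)ˣ] [Fintype (ZMod m)ˣ] :
    R g m ≤ (univ.filter (fun x : (ZMod m)ˣ => x ^ g = 1)).card := by
  have : NeZero m := ⟨by omega⟩
  unfold R
  classical
  rw [← Fintype.card_subtype, ← Nat.card_eq_fintype_card]
  refine Nat.card_le_card_of_injective
    (fun t : {t : ZMod m // t ^ g = 1} =>
      (⟨Units.mk t.1 (t.1 ^ (g - 1)) (by rw [← pow_succ']; rw [Nat.sub_add_cancel hg]; exact t.2)
        (by rw [← pow_succ]; rw [Nat.sub_add_cancel hg]; exact t.2), ?_⟩ :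
        {x : (ZMod m)ˣ // x ^ g = 1})) ?_
  · ext
    push_cast
    exact t.2
  · intro s t hst
    have h1 := congrArg (fun z : {x : (ZMod m)ˣ // x ^ g = 1} => ((z : (ZMod m)ˣ) : ZMod m)) hst
    simp only at h1
    exact Subtype.ext h1

theorem R_prime_pow (g p e : ℕ) (hp : p.Prime) (hg : 1 ≤ g) : R g (p ^ e) ≤ 2 * g := by
  have hm : 1 ≤ p ^ e := Nat.one_le_pow _ _ hp.pos
  have : NeZero (p ^ e) := ⟨by omega⟩
  classical
  refine (R_le_units g (p ^ e) hm hg).trans ?_
  by_cases h2 : p = 2
  · subst h2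
    rcases e with _ | _ | n
    · have h1 : (univ.filter (fun x : (ZMod (2 ^ 0))ˣ => x ^ g = 1)).card ≤
          Fintype.card (ZMod (2 ^ 0))ˣ := Finset.card_le_univ _
      rw [ZMod.card_units_eq_totient] at h1
      have h2 : Nat.totient (2 ^ 0) = 1 := by decide
      rw [h2] at h1
      exact h1.trans (by omega)
    · have h1 : (univ.filter (fun x : (ZMod (2 ^ (0 + 1)))ˣ => x ^ g = 1)).card ≤
          Fintype.card (ZMod (2 ^ (0 + 1)))ˣ := Finset.card_le_univ _
      rw [ZMod.card_units_eq_totient] at h1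
      have h2 : Nat.totient (2 ^ (0 + 1)) = 1 := by decide
      rw [h2] at h1
      exact h1.trans (by omega)
    · have hc : Nat.Coprime 5 (2 ^ (n + 2)) := by
        apply Nat.Coprime.pow_right
        norm_num
      set z : (ZMod (2 ^ (n + 2)))ˣ := ZMod.unitOfCoprime 5 hc with hz
      have hord : orderOf z = 2 ^ n := by
        rw [← orderOf_units, hz, ZMod.coe_unitOfCoprime]
        push_cast
        exact ZMod.orderOf_five n
      have hidx : (Subgroup.zpowers z).index = 2 := by
        have h1 := Subgroup.card_mul_index (Subgroup.zpowers z)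
        rw [Nat.card_zpowers, hord, Nat.card_eq_fintype_card, ZMod.card_units_eq_totient,
          Nat.totient_prime_pow_succ Nat.prime_two] at h1
        have h2 : (2 : ℕ) ^ (n + 1) * (2 - 1) = 2 ^ n * 2 := by ring
        rw [h2] at h1
        exact Nat.eq_of_mul_eq_mul_left (by positivity) h1
      have h3 := card_roots_group (Subgroup.zpowers z) 2 g hidx hg
      show (univ.filter (fun x : (ZMod (2 ^ (n + 2)))ˣ => x ^ g = 1)).card ≤ 2 * g
      linarith
  · have : IsCyclic (ZMod (p ^ e))ˣ := ZMod.isCyclic_units_of_prime_pow p hp h2 e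
    have h1 : (univ.filter (fun a : (ZMod (p ^ e))ˣ => a ^ g = 1)).card ≤ g :=
      IsCyclic.card_pow_eq_one_le hg
    omega

theorem R_mul (g a b : ℕ) (hab : Nat.Coprime a b) : R g (a * b) = R g a * R g b := by
  unfold R
  rw [← Nat.card_prod]
  refine Nat.card_congr ?_
  let φ := ZMod.chineseRemainder hab
  refine
    { toFun := fun t => (⟨(φ t.1).1, ?_⟩, ⟨(φ t.1).2, ?_⟩)
      invFun := fun s => ⟨φ.symm (s.1.1, s.2.1), ?_⟩
      left_inv := ?_
      right_inv := ?_ }
  · have h : φ (t.1 ^ g) = 1 := by rw [t.2, map_one]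
    rw [map_pow] at h
    exact congrArg Prod.fst h
  · have h : φ (t.1 ^ g) = 1 := by rw [t.2, map_one]
    rw [map_pow] at h
    exact congrArg Prod.snd h
  · rw [← map_pow]
    have h : ((s.1.1, s.2.1) : ZMod a × ZMod b) ^ g = 1 := by
      rw [Prod.pow_mk, s.1.2, s.2.2]
      rfl
    rw [h, map_one]
  · intro t
    apply Subtype.ext
    simp
  · intro s
    apply Prod.ext
    · apply Subtype.ext
      simp
    · apply Subtype.ext
      simp

theorem R_le (g k : ℕ) (hg : 1 ≤ g) (hk : 2 * g ≤ 2 ^ k) (m : ℕ) (hm : 1 ≤ m) :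
    R g m ≤ m.divisors.card ^ k := by
  induction m using Nat.recOnPosPrimePosCoprime with
  | prime_pow p e hp he =>
    rw [Nat.divisors_prime_pow hp, Finset.card_map, Finset.card_range]
    refine (R_prime_pow g p e hp hg).trans (hk.trans ?_)
    exact Nat.pow_le_pow_left (by omega) k
  | zero => omega
  | one =>
    have : R g 1 ≤ 1 := by
      unfold R
      have : Subsingleton {t : ZMod 1 // t ^ g = 1} := inferInstance
      exact Finite.card_le_one_iff_subsingleton.mpr this
    simpa using this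
  | coprime a b ha hb hab iha ihb =>
    rw [R_mul g a b hab, Nat.Coprime.card_divisors_mul hab, mul_pow]
    exact Nat.mul_le_mul (iha (by omega)) (ihb (by omega))

end T3

theorem nroots_bound (g : ℕ) (hg : 1 ≤ g) (ε : ℝ) (hε : 0 < ε) :
    ∃ C : ℝ, 0 < C ∧ ∀ m : ℕ, 1 ≤ m → (nroots g m : ℝ) ≤ C * (m : ℝ) ^ ε := by
  set k : ℕ := 2 * g with hk
  have hk1 : 1 ≤ k := by omega
  have hkpos : (0 : ℝ) < k := by exact_mod_cast hk1
  obtain ⟨C, hC, hdiv⟩ := Pool.Agent.H510R2.divisor_bound (ε / k) (by positivity)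
  refine ⟨C ^ k, by positivity, ?_⟩
  intro m hm
  rw [T3.nroots_eq g m hm]
  have h1 : T3.R g m ≤ m.divisors.card ^ k := T3.R_le g k hg (Nat.lt_two_pow_self).le m hm
  have h2 := hdiv m hm
  calc (T3.R g m : ℝ) ≤ ((m.divisors.card ^ k : ℕ) : ℝ) := by exact_mod_cast h1
    _ = (m.divisors.card : ℝ) ^ k := by push_cast; rfl
    _ ≤ (C * (m : ℝ) ^ (ε / k)) ^ k := pow_le_pow_left₀ (by positivity) h2 k
    _ = C ^ k * (m : ℝ) ^ ε := by
      rw [mul_pow, ← Real.rpow_natCast ((m : ℝ) ^ (ε / k)) k, ← Real.rpow_mul (by positivity)]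
      congr 2
      field_simp

end Pool.Agent.H335R2.Abc
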