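import Pool.Agent.H335R2.Abc.Defs
import Pool.Agent.H335R2.Abc.Fiber
import Pool.Agent.H335R2.Abc.Roots
import Pool.Agent.H335R2.Abc.RadSum
import Pool.Agent.H335R2.Abc.Parts

set_option autoImplicit false

open Finset

/-! T6: the counting lemma (helper954) -/

namespace Pool.Agent.H335R2.Abc

namespace Cnt

lemma rad_pos (n : ℕ) : 0 < rad n := by
  unfold rad
  exact Finset.prod_pos fun p hp => (Nat.prime_of_mem_primeFactors hp).pos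

lemma log2_bound (δ : ℝ) (hδ : 0 < δ) :
    ∃ C : ℝ, 0 < C ∧ ∀ X : ℕ, 1 ≤ X → ((Nat.log 2 X + 1 : ℕ) : ℝ) ≤ C * (X : ℝ) ^ δ := by
  refine ⟨1 / (δ * Real.log 2) + 1, by positivity, fun X hX => ?_⟩
  have hX' : (1 : ℝ) ≤ X := by exact_mod_cast hX
  have h1 : (2 : ℝ) ^ (Nat.log 2 X) ≤ X := by
    exact_mod_cast Nat.pow_log_le_self 2 (by omega)
  have h2 : (Nat.log 2 X : ℝ) * Real.log 2 ≤ Real.log X := by
    rw [← Real.log_pow]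
    exact Real.log_le_log (by positivity) h1
  have h3 : Real.log X ≤ (X : ℝ) ^ δ / δ := Real.log_le_rpow_div (by positivity) hδ
  have hl2 : 0 < Real.log 2 := Real.log_pos (by norm_num)
  have h4 : (Nat.log 2 X : ℝ) ≤ 1 / (δ * Real.log 2) * (X : ℝ) ^ δ := by
    have : (Nat.log 2 X : ℝ) ≤ ((X : ℝ) ^ δ / δ) / Real.log 2 := by
      rw [le_div_iff₀ hl2]
      exact h2.trans h3
    refine this.trans (le_of_eq ?_)
    field_simp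
  have h5 : (1 : ℝ) ≤ (X : ℝ) ^ δ := Real.one_le_rpow hX' hδ.le
  push_cast
  linarith

/-- the key of a triple -/
def key (I₁ I₂ J : Finset ℕ) (e : ℕ × ℕ × ℕ → ℕ × ℕ) (t : ℕ × ℕ × ℕ) : (ℕ × ℕ × ℕ) × (ℕ × ℕ) :=
  ((part J t.2.2, part (U \ I₁) t.1, part (U \ I₂) t.2.1), e t)

theorem count_core (g : ℕ) (I₁ I₂ J : Finset ℕ) (hg : 1 ≤ g) (c : ℝ) (hc : 0 < c)
    (ε : ℝ) (hε : 0 < ε) :
    ∃ C : ℝ, 0 < C ∧ ∀ X : ℕ, 1 ≤ X → ∀ Y : ℝ, 0 < Y → ∀ T : Finset (ℕ × ℕ × ℕ),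
      ∀ W : ℕ × ℕ × ℕ → ℝ, ∀ e : ℕ × ℕ × ℕ → ℕ × ℕ,
      (∀ t ∈ T, 0 < t.1 ∧ 0 < t.2.1 ∧ 0 < t.2.2 ∧ t.1 ≤ X ∧ t.2.1 ≤ X ∧ t.2.2 ≤ X) →
      (∀ t ∈ T, (e t).1 ≤ Nat.log 2 X ∧ (e t).2 ≤ Nat.log 2 X) →
      (∀ t₀ ∈ T, ((T.filter (fun t => key I₁ I₂ J e t = key I₁ I₂ J e t₀)).card : ℝ) ≤
        c * nroots g (part J t₀.2.2) * W t₀) →
      (∀ t ∈ T, (rpart J t.2.2 : ℝ) * rpart (U \ I₁) t.1 * rpart (U \ I₂) t.2.1 * W t ≤ Y) →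
      (T.card : ℝ) ≤ C * Y * (X : ℝ) ^ ε := by
  classical
  obtain ⟨C1, hC1, h1⟩ := nroots_bound g hg (ε / 6) (by positivity)
  obtain ⟨C2, hC2, h2⟩ := sum_inv_rad (ε / 6) (by positivity)
  obtain ⟨C3, hC3, h3⟩ := log2_bound (ε / 6) (by positivity)
  refine ⟨c * C1 * C2 ^ 3 * C3 ^ 2, by positivity, ?_⟩
  intro X hX Y hY T W e hT he hfib hQ
  have hX' : (1 : ℝ) ≤ X := by exact_mod_cast hX
  set L := Nat.log 2 X + 1 with hL
  set K : Finset ((ℕ × ℕ × ℕ) × (ℕ × ℕ)) :=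
    (Icc 1 X ×ˢ Icc 1 X ×ˢ Icc 1 X) ×ˢ (range L ×ˢ range L) with hK
  have hmaps : ∀ t ∈ T, key I₁ I₂ J e t ∈ K := by
    intro t ht
    obtain ⟨a1, a2, a3, a4, a5, a6⟩ := hT t ht
    obtain ⟨b1, b2⟩ := he t ht
    have hd1 := Nat.le_of_dvd a3 (part_dvd J t.2.2)
    have hd2 := Nat.le_of_dvd a1 (part_dvd (U \ I₁) t.1)
    have hd3 := Nat.le_of_dvd a2 (part_dvd (U \ I₂) t.2.1)
    have hp1 := part_pos J t.2.2
    have hp2 := part_pos (U \ I₁) t.1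
    have hp3 := part_pos (U \ I₂) t.2.1
    simp only [hK, key, mem_product, mem_Icc, mem_range]
    omega
  rw [card_eq_sum_card_fiberwise hmaps]
  push_cast
  have hb : ∀ b ∈ K, ((T.filter (fun t => key I₁ I₂ J e t = b)).card : ℝ) ≤
      c * (C1 * (X : ℝ) ^ (ε / 6)) * Y *
        ((1 / (rad b.1.1 : ℝ)) * ((1 / (rad b.1.2.1 : ℝ)) * (1 / (rad b.1.2.2 : ℝ)))) := by
    intro b hbK
    have r1 : (0 : ℝ) < rad b.1.1 := by exact_mod_cast rad_pos _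
    have r2 : (0 : ℝ) < rad b.1.2.1 := by exact_mod_cast rad_pos _
    have r3 : (0 : ℝ) < rad b.1.2.2 := by exact_mod_cast rad_pos _
    rcases (T.filter (fun t => key I₁ I₂ J e t = b)).eq_empty_or_nonempty with h0 | ⟨t₀, ht₀⟩
    · rw [h0]
      simp only [card_empty, Nat.cast_zero]
      positivity
    · obtain ⟨ht₀T, ht₀b⟩ := mem_filter.1 ht₀
      have hf := hfib t₀ ht₀T
      rw [ht₀b] at hf
      refine hf.trans ?_
      have hq := hQ t₀ ht₀T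
      rw [← rad_part, ← rad_part, ← rad_part] at hq
      have e1 : part J t₀.2.2 = b.1.1 := by rw [← ht₀b]; rfl
      have e2 : part (U \ I₁) t₀.1 = b.1.2.1 := by rw [← ht₀b]; rfl
      have e3 : part (U \ I₂) t₀.2.1 = b.1.2.2 := by rw [← ht₀b]; rfl
      rw [e1, e2, e3] at hq
      rw [e1]
      have hm : 1 ≤ b.1.1 ∧ b.1.1 ≤ X := by
        have := hbK
        simp only [hK, mem_product, mem_Icc, mem_range] at this
        exact this.1.1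
      have hn : (nroots g b.1.1 : ℝ) ≤ C1 * (X : ℝ) ^ (ε / 6) := by
        refine (h1 b.1.1 hm.1).trans ?_
        gcongr
        exact_mod_cast hm.2
      have hW : W t₀ ≤ Y * ((1 / (rad b.1.1 : ℝ)) * ((1 / (rad b.1.2.1 : ℝ)) * (1 / (rad b.1.2.2 : ℝ)))) := by
        rw [show Y * ((1 / (rad b.1.1 : ℝ)) * ((1 / (rad b.1.2.1 : ℝ)) * (1 / (rad b.1.2.2 : ℝ)))) =
          Y / ((rad b.1.1 : ℝ) * rad b.1.2.1 * rad b.1.2.2) by field_simp]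
        rw [le_div_iff₀ (by positivity), mul_comm]
        exact hq
      have hnn : (0 : ℝ) ≤ nroots g b.1.1 := by positivity
      calc c * nroots g b.1.1 * W t₀ ≤ c * nroots g b.1.1 *
            (Y * ((1 / (rad b.1.1 : ℝ)) * ((1 / (rad b.1.2.1 : ℝ)) * (1 / (rad b.1.2.2 : ℝ))))) := by
            gcongr
        _ ≤ c * (C1 * (X : ℝ) ^ (ε / 6)) *
            (Y * ((1 / (rad b.1.1 : ℝ)) * ((1 / (rad b.1.2.1 : ℝ)) * (1 / (rad b.1.2.2 : ℝ))))) := by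
            gcongr
        _ = _ := by ring
  refine (sum_le_sum hb).trans ?_
  rw [← mul_sum, hK, sum_product]
  simp only [sum_const, nsmul_eq_mul]
  rw [← mul_sum, sum_product]
  simp only [← mul_sum]
  rw [← sum_mul, sum_product]
  simp only [← mul_sum]
  rw [← sum_mul]
  set R := ∑ n ∈ Icc 1 X, (1 : ℝ) / rad n with hR
  have hR0 : 0 ≤ R := by rw [hR]; positivity
  have hRle := h2 X hX
  rw [← hR] at hRle
  have hLle := h3 X hX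
  rw [← hL] at hLle
  have hcard : ((range L ×ˢ range L).card : ℝ) = (L : ℝ) ^ 2 := by
    rw [card_product, card_range]; push_cast; ring
  rw [hcard]
  have hXpow : ((X : ℝ) ^ (ε / 6)) ^ 6 = (X : ℝ) ^ ε := by
    rw [← Real.rpow_natCast, ← Real.rpow_mul (by positivity)]
    congr 1
    push_cast
    ring
  calc c * (C1 * (X : ℝ) ^ (ε / 6)) * Y * ((L : ℝ) ^ 2 * (R * (R * R)))
      ≤ c * (C1 * (X : ℝ) ^ (ε / 6)) * Y * ((C3 * (X : ℝ) ^ (ε / 6)) ^ 2 *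
          ((C2 * (X : ℝ) ^ (ε / 6)) * ((C2 * (X : ℝ) ^ (ε / 6)) * (C2 * (X : ℝ) ^ (ε / 6))))) := by
        gcongr
    _ = c * C1 * C2 ^ 3 * C3 ^ 2 * Y * ((X : ℝ) ^ (ε / 6)) ^ 6 := by ring
    _ = _ := by rw [hXpow]

lemma decomp (g : ℕ) (I : Finset ℕ) (hI : Valid g I) (n : ℕ) (hn : 0 < n) :
    n = part (U \ I) n * gpart g I n ^ g := by
  rw [gpart_pow g I hI, part_mul I n hn.ne']

lemma cross_mod (m A B u v u' v' g : ℕ) (σ : ℤ)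
    (h : (m : ℤ) ∣ A * (u : ℤ) ^ g + σ * (B * (v : ℤ) ^ g))
    (h' : (m : ℤ) ∣ A * (u' : ℤ) ^ g + σ * (B * (v' : ℤ) ^ g))
    (hA : Nat.Coprime m A) (hB : Nat.Coprime m B) :
    (u * v') ^ g ≡ (u' * v) ^ g [MOD m] := by
  have h1 : (m : ℤ) ∣ (A * B) * (((u' * v : ℕ) : ℤ) ^ g - ((u * v' : ℕ) : ℤ) ^ g) := by
    have h2 : (m : ℤ) ∣ (B * (v : ℤ) ^ g) * (A * (u' : ℤ) ^ g + σ * (B * (v' : ℤ) ^ g)) -
        (B * (v' : ℤ) ^ g) * (A * (u : ℤ) ^ g + σ * (B * (v : ℤ) ^ g)) :=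
      dvd_sub (Dvd.dvd.mul_left h' _) (Dvd.dvd.mul_left h _)
    convert h2 using 1
    push_cast
    ring
  have hcop : IsCoprime (m : ℤ) (A * B) := by
    rw [Nat.isCoprime_iff_coprime.symm] at hA hB
    exact IsCoprime.mul_right hA hB
  have h3 := hcop.dvd_of_dvd_mul_left h1
  have h4 : ((u * v') ^ g : ℤ) ≡ (u' * v) ^ g [ZMOD m] := by
    rw [Int.modEq_iff_dvd]
    push_cast at h3
    exact h3
  have h5 : (((u * v') ^ g : ℕ) : ℤ) ≡ (((u' * v) ^ g : ℕ) : ℤ) [ZMOD m] := by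
    push_cast
    exact h4
  exact Int.natCast_modEq_iff.1 h5

/-- data common to both fibre bounds -/
structure Tri (X : ℕ) (t : ℕ × ℕ × ℕ) : Prop where
  p1 : 0 < t.1
  p2 : 0 < t.2.1
  p3 : 0 < t.2.2
  l1 : t.1 ≤ X
  l2 : t.2.1 ≤ X
  l3 : t.2.2 ≤ X
  c12 : Nat.Coprime t.1 t.2.1
  c31 : Nat.Coprime t.2.2 t.1
  c32 : Nat.Coprime t.2.2 t.2.1

lemma cop_of_dvd {a b a' b' : ℕ} (h : Nat.Coprime a b) (ha : a' ∣ a) (hb : b' ∣ b) :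
    Nat.Coprime a' b' := (h.coprime_dvd_left ha).coprime_dvd_right hb

lemma fiber_noarch (g : ℕ) (I₁ I₂ J : Finset ℕ) (h₁ : Valid g I₁) (h₂ : Valid g I₂)
    (X : ℕ) (T : Finset (ℕ × ℕ × ℕ)) (hT : ∀ t ∈ T, Tri X t)
    (hrel : (∀ t ∈ T, t.1 + t.2.1 = t.2.2) ∨ (∀ t ∈ T, t.2.2 + t.1 = t.2.1))
    (t₀ : ℕ × ℕ × ℕ) (ht₀ : t₀ ∈ T) :
    let e : ℕ × ℕ × ℕ → ℕ × ℕ := fun t => (Nat.log 2 (gpart g I₁ t.1), Nat.log 2 (gpart g I₂ t.2.1))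
    ((T.filter (fun t => key I₁ I₂ J e t = key I₁ I₂ J e t₀)).card : ℝ) ≤
        9 * nroots g (part J t₀.2.2) *
          max 1 ((1 : ℝ) * gpart g I₁ t₀.1 * gpart g I₂ t₀.2.1 / part J t₀.2.2) := by
  classical
  intro e
  set F := T.filter (fun t => key I₁ I₂ J e t = key I₁ I₂ J e t₀) with hF
  set m := part J t₀.2.2 with hm
  set A := part (U \ I₁) t₀.1 with hA
  set B := part (U \ I₂) t₀.2.1 with hB
  set i := Nat.log 2 (gpart g I₁ t₀.1) with hi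
  set j := Nat.log 2 (gpart g I₂ t₀.2.1) with hj
  have hmem : ∀ t ∈ F, t ∈ T ∧ part J t.2.2 = m ∧ part (U \ I₁) t.1 = A ∧ part (U \ I₂) t.2.1 = B ∧
      Nat.log 2 (gpart g I₁ t.1) = i ∧ Nat.log 2 (gpart g I₂ t.2.1) = j := by
    intro t ht
    obtain ⟨ht1, ht2⟩ := mem_filter.1 ht
    simp only [key, e, Prod.mk.injEq] at ht2
    exact ⟨ht1, ht2.1.1, ht2.1.2.1, ht2.1.2.2, ht2.2.1, ht2.2.2⟩
  have hmpos : 0 < m := part_pos _ _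
  set φ : ℕ × ℕ × ℕ → ℕ × ℕ := fun t => (gpart g I₁ t.1, gpart g I₂ t.2.1) with hφ
  have hinj : Set.InjOn φ F := by
    intro t ht t' ht' htt
    rw [mem_coe] at ht ht'
    obtain ⟨a1, a2, a3, a4, a5, a6⟩ := hmem t ht
    obtain ⟨b1, b2, b3, b4, b5, b6⟩ := hmem t' ht'
    simp only [hφ, Prod.mk.injEq] at htt
    have d1 := decomp g I₁ h₁ t.1 (hT t a1).p1
    have d2 := decomp g I₂ h₂ t.2.1 (hT t a1).p2
    have d1' := decomp g I₁ h₁ t'.1 (hT t' b1).p1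
    have d2' := decomp g I₂ h₂ t'.2.1 (hT t' b1).p2
    have e1 : t.1 = t'.1 := by rw [d1, d1', a3, b3, htt.1]
    have e2 : t.2.1 = t'.2.1 := by rw [d2, d2', a4, b4, htt.2]
    have e3 : t.2.2 = t'.2.2 := by
      rcases hrel with hr | hr
      · have := hr t a1; have := hr t' b1; omega
      · have := hr t a1; have := hr t' b1; omega
    exact Prod.ext e1 (Prod.ext e2 e3)
  rw [← card_image_of_injOn hinj]
  have hσ : ∃ σ : ℤ, ∀ t ∈ F, (m : ℤ) ∣ A * (gpart g I₁ t.1 : ℤ) ^ g + σ * (B * (gpart g I₂ t.2.1 : ℤ) ^ g) := by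
    rcases hrel with hr | hr
    · refine ⟨1, fun t ht => ?_⟩
      obtain ⟨a1, a2, a3, a4, a5, a6⟩ := hmem t ht
      have d1 := decomp g I₁ h₁ t.1 (hT t a1).p1
      have d2 := decomp g I₂ h₂ t.2.1 (hT t a1).p2
      rw [a3] at d1
      rw [a4] at d2
      have h5 : (A * (gpart g I₁ t.1 : ℤ) ^ g + 1 * (B * (gpart g I₂ t.2.1 : ℤ) ^ g)) = (t.2.2 : ℤ) := by
        have := hr t a1
        rw [← this]
        push_cast
        conv_rhs => rw [d1, d2]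
        push_cast
        ring
      rw [h5, ← a2]
      exact_mod_cast part_dvd J t.2.2
    · refine ⟨-1, fun t ht => ?_⟩
      obtain ⟨a1, a2, a3, a4, a5, a6⟩ := hmem t ht
      have d1 := decomp g I₁ h₁ t.1 (hT t a1).p1
      have d2 := decomp g I₂ h₂ t.2.1 (hT t a1).p2
      rw [a3] at d1
      rw [a4] at d2
      have h5 : (A * (gpart g I₁ t.1 : ℤ) ^ g + (-1) * (B * (gpart g I₂ t.2.1 : ℤ) ^ g)) = -(t.2.2 : ℤ) := by
        have := hr t a1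
        have h6 : (t.2.2 : ℤ) = t.2.1 - t.1 := by rw [← this]; push_cast; ring
        rw [h6]
        conv_rhs => rw [d1, d2]
        push_cast
        ring
      rw [h5, ← a2, dvd_neg]
      exact_mod_cast part_dvd J t.2.2
  obtain ⟨σ, hσ⟩ := hσ
  have hT0 := hT t₀ ht₀
  have hcA : Nat.Coprime m A := cop_of_dvd hT0.c31 (part_dvd _ _) (part_dvd _ _)
  have hcB : Nat.Coprime m B := cop_of_dvd hT0.c32 (part_dvd _ _) (part_dvd _ _)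
  have key1 := fiber_card g m (2 ^ (j + 1)) hmpos (F.image φ) 0 (2 ^ (i + 1) / 2 ^ j) (by positivity)
    (by
      intro q hq
      obtain ⟨t, ht, rfl⟩ := mem_image.1 hq
      obtain ⟨a1, a2, a3, a4, a5, a6⟩ := hmem t ht
      refine ⟨gpart_pos _ _ _, gpart_pos _ _ _, ?_⟩
      have := Nat.lt_pow_succ_log_self (b := 2) (by norm_num) (gpart g I₂ t.2.1)
      rw [a6] at this
      exact this.le)
    (by
      intro q hq
      obtain ⟨t, ht, rfl⟩ := mem_image.1 hq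
      obtain ⟨a1, a2, a3, a4, a5, a6⟩ := hmem t ht
      have hTt := hT t a1
      refine ⟨cop_of_dvd hTt.c12 (gpart_dvd _ _ _) (gpart_dvd _ _ _), ?_, ?_⟩
      · rw [← a2]; exact cop_of_dvd hTt.c31 (part_dvd _ _) (gpart_dvd _ _ _)
      · rw [← a2]; exact cop_of_dvd hTt.c32 (part_dvd _ _) (gpart_dvd _ _ _))
    (by
      intro q hq
      obtain ⟨t, ht, rfl⟩ := mem_image.1 hq
      obtain ⟨a1, a2, a3, a4, a5, a6⟩ := hmem t ht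
      refine ⟨by positivity, ?_⟩
      rw [zero_add]
      have h3 := Nat.lt_pow_succ_log_self (b := 2) (by norm_num) (gpart g I₁ t.1)
      rw [a5] at h3
      have h4 := Nat.pow_log_le_self 2 (gpart_pos g I₂ t.2.1).ne'
      rw [a6] at h4
      have h3' : (gpart g I₁ t.1 : ℝ) ≤ 2 ^ (i + 1) := by exact_mod_cast h3.le
      have h4' : (2 : ℝ) ^ j ≤ gpart g I₂ t.2.1 := by exact_mod_cast h4
      simp only [hφ]
      gcongr)
    (by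
      intro q hq q' hq'
      obtain ⟨t, ht, rfl⟩ := mem_image.1 hq
      obtain ⟨t', ht', rfl⟩ := mem_image.1 hq'
      exact cross_mod m A B _ _ _ _ g σ (hσ t ht) (hσ t' ht') hcA hcB)
  refine key1.trans ?_
  have hmR : (0 : ℝ) < m := by exact_mod_cast hmpos
  have h3 := Nat.pow_log_le_self 2 (gpart_pos g I₁ t₀.1).ne'
  have h4 := Nat.pow_log_le_self 2 (gpart_pos g I₂ t₀.2.1).ne'
  rw [← hi] at h3
  rw [← hj] at h4
  have h3' : (2 : ℝ) ^ i ≤ gpart g I₁ t₀.1 := by exact_mod_cast h3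
  have h4' : (2 : ℝ) ^ j ≤ gpart g I₂ t₀.2.1 := by exact_mod_cast h4
  set u := (gpart g I₁ t₀.1 : ℝ)
  set v := (gpart g I₂ t₀.2.1 : ℝ)
  have h6 : (2 : ℝ) ^ (i + 1) / 2 ^ j * ((2 ^ (j + 1) : ℕ) : ℝ) ^ 2 / m = 8 * (2 ^ i * 2 ^ j / m) := by
    push_cast
    rw [pow_succ, pow_succ]
    field_simp
    ring
  have h7 : (2 : ℝ) ^ i * 2 ^ j / m ≤ max 1 (1 * u * v / m) := by
    refine le_trans ?_ (le_max_right _ _)
    rw [one_mul]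
    gcongr
  have h8 : (1 : ℝ) ≤ max 1 (1 * u * v / m) := le_max_left _ _
  have h9 : 1 + (2 : ℝ) ^ (i + 1) / 2 ^ j * ((2 ^ (j + 1) : ℕ) : ℝ) ^ 2 / m ≤ 9 * max 1 (1 * u * v / m) := by
    rw [h6]; linarith
  calc (nroots g m : ℝ) * (1 + (2 : ℝ) ^ (i + 1) / 2 ^ j * ((2 ^ (j + 1) : ℕ) : ℝ) ^ 2 / m)
      ≤ nroots g m * (9 * max 1 (1 * u * v / m)) := by gcongr
    _ = _ := by ring

lemma fiber_arch (g : ℕ) (I₁ I₂ J : Finset ℕ) (hg : 1 ≤ g) (h₁ : Valid g I₁) (h₂ : Valid g I₂)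
    (X : ℕ) (T : Finset (ℕ × ℕ × ℕ)) (hT : ∀ t ∈ T, Tri X t)
    (hrel : ∀ t ∈ T, t.2.2 + t.1 = t.2.1 ∧ t.2.2 ≤ t.1)
    (t₀ : ℕ × ℕ × ℕ) (ht₀ : t₀ ∈ T) :
    let e : ℕ × ℕ × ℕ → ℕ × ℕ := fun t => (Nat.log 2 (gpart g I₁ t.1), Nat.log 2 t.2.2)
    ((T.filter (fun t => key I₁ I₂ J e t = key I₁ I₂ J e t₀)).card : ℝ) ≤
        (1 + 2 ^ (g + 4)) * nroots g (part J t₀.2.2) *
          max 1 ((t₀.2.2 : ℝ) / t₀.2.1 * gpart g I₁ t₀.1 * gpart g I₂ t₀.2.1 / part J t₀.2.2) := by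
  classical
  intro e
  set F := T.filter (fun t => key I₁ I₂ J e t = key I₁ I₂ J e t₀) with hF
  set m := part J t₀.2.2 with hm
  set A := part (U \ I₁) t₀.1 with hA
  set B := part (U \ I₂) t₀.2.1 with hB
  set i := Nat.log 2 (gpart g I₁ t₀.1) with hi
  set k := Nat.log 2 t₀.2.2 with hk
  have hmem : ∀ t ∈ F, t ∈ T ∧ part J t.2.2 = m ∧ part (U \ I₁) t.1 = A ∧ part (U \ I₂) t.2.1 = B ∧
      Nat.log 2 (gpart g I₁ t.1) = i ∧ Nat.log 2 t.2.2 = k := by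
    intro t ht
    obtain ⟨ht1, ht2⟩ := mem_filter.1 ht
    simp only [key, e, Prod.mk.injEq] at ht2
    exact ⟨ht1, ht2.1.1, ht2.1.2.1, ht2.1.2.2, ht2.2.1, ht2.2.2⟩
  have hmpos : 0 < m := part_pos _ _
  have hApos : 0 < A := part_pos _ _
  have hBpos : 0 < B := part_pos _ _
  set φ : ℕ × ℕ × ℕ → ℕ × ℕ := fun t => (gpart g I₂ t.2.1, gpart g I₁ t.1) with hφ
  have hinj : Set.InjOn φ F := by
    intro t ht t' ht' htt
    rw [mem_coe] at ht ht'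
    obtain ⟨a1, a2, a3, a4, a5, a6⟩ := hmem t ht
    obtain ⟨b1, b2, b3, b4, b5, b6⟩ := hmem t' ht'
    simp only [hφ, Prod.mk.injEq] at htt
    have d1 := decomp g I₁ h₁ t.1 (hT t a1).p1
    have d2 := decomp g I₂ h₂ t.2.1 (hT t a1).p2
    have d1' := decomp g I₁ h₁ t'.1 (hT t' b1).p1
    have d2' := decomp g I₂ h₂ t'.2.1 (hT t' b1).p2
    have e1 : t.1 = t'.1 := by rw [d1, d1', a3, b3, htt.2]
    have e2 : t.2.1 = t'.2.1 := by rw [d2, d2', a4, b4, htt.1]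
    have e3 : t.2.2 = t'.2.2 := by
      have := (hrel t a1).1; have := (hrel t' b1).1; omega
    exact Prod.ext e1 (Prod.ext e2 e3)
  rw [← card_image_of_injOn hinj]
  have hσ : ∀ t ∈ F, (m : ℤ) ∣ B * (gpart g I₂ t.2.1 : ℤ) ^ g + (-1) * (A * (gpart g I₁ t.1 : ℤ) ^ g) := by
    intro t ht
    obtain ⟨a1, a2, a3, a4, a5, a6⟩ := hmem t ht
    have d1 := decomp g I₁ h₁ t.1 (hT t a1).p1
    have d2 := decomp g I₂ h₂ t.2.1 (hT t a1).p2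
    rw [a3] at d1
    rw [a4] at d2
    have h5 : (B * (gpart g I₂ t.2.1 : ℤ) ^ g + (-1) * (A * (gpart g I₁ t.1 : ℤ) ^ g)) = (t.2.2 : ℤ) := by
      have := (hrel t a1).1
      have h6 : (t.2.2 : ℤ) = t.2.1 - t.1 := by rw [← this]; push_cast; ring
      rw [h6]
      conv_rhs => rw [d1, d2]
      push_cast
      ring
    rw [h5, ← a2]
    exact_mod_cast part_dvd J t.2.2
  have hT0 := hT t₀ ht₀
  have hcA : Nat.Coprime m A := cop_of_dvd hT0.c31 (part_dvd _ _) (part_dvd _ _)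
  have hcB : Nat.Coprime m B := cop_of_dvd hT0.c32 (part_dvd _ _) (part_dvd _ _)
  have hg0 : (0 : ℝ) < g := by exact_mod_cast hg
  set ξ : ℝ := ((A : ℝ) / B) ^ ((1 : ℝ) / g) with hξ
  have hAR : (0 : ℝ) < A := by exact_mod_cast hApos
  have hBR : (0 : ℝ) < B := by exact_mod_cast hBpos
  have hξpos : 0 < ξ := Real.rpow_pos_of_pos (by positivity) _
  have hξg : ξ ^ g = (A : ℝ) / B := by
    rw [hξ, ← Real.rpow_natCast, ← Real.rpow_mul (by positivity)]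
    rw [one_div, inv_mul_cancel₀ hg0.ne', Real.rpow_one]
  set δ : ℝ := 2 ^ (k + 1) / (A * 2 ^ (g * i)) with hδ
  have hδpos : 0 < δ := by positivity
  have hrat : ∀ t ∈ F, ξ ≤ (gpart g I₂ t.2.1 : ℝ) / gpart g I₁ t.1 ∧
      (gpart g I₂ t.2.1 : ℝ) / gpart g I₁ t.1 ≤ ξ + ξ * δ := by
    intro t ht
    obtain ⟨a1, a2, a3, a4, a5, a6⟩ := hmem t ht
    have hTt := hT t a1
    have d1 := decomp g I₁ h₁ t.1 (hT t a1).p1
    have d2 := decomp g I₂ h₂ t.2.1 (hT t a1).p2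
    rw [a3] at d1
    rw [a4] at d2
    have hu : (0 : ℝ) < gpart g I₁ t.1 := by exact_mod_cast gpart_pos _ _ _
    have hv : (0 : ℝ) < gpart g I₂ t.2.1 := by exact_mod_cast gpart_pos _ _ _
    have d1R : (t.1 : ℝ) = A * (gpart g I₁ t.1 : ℝ) ^ g := by exact_mod_cast d1
    have d2R : (t.2.1 : ℝ) = B * (gpart g I₂ t.2.1 : ℝ) ^ g := by exact_mod_cast d2
    have hx : (0 : ℝ) < t.1 := by exact_mod_cast hTt.p1
    have hz : (0 : ℝ) < t.2.2 := by exact_mod_cast hTt.p3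
    have hyz : (t.2.1 : ℝ) = t.2.2 + t.1 := by exact_mod_cast (hrel t a1).1.symm
    have hpow : ((gpart g I₂ t.2.1 : ℝ) / gpart g I₁ t.1) ^ g = ξ ^ g * (1 + t.2.2 / t.1) := by
      rw [div_pow, hξg]
      have e1 : (gpart g I₂ t.2.1 : ℝ) ^ g = t.2.1 / B := by rw [d2R]; field_simp
      have e2 : (gpart g I₁ t.1 : ℝ) ^ g = t.1 / A := by rw [d1R]; field_simp
      rw [e1, e2, hyz]
      field_simp
      ring
    have hzx : (t.2.2 : ℝ) / t.1 ≤ δ := by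
      rw [hδ]
      have h3 := Nat.lt_pow_succ_log_self (b := 2) (by norm_num) t.2.2
      rw [a6] at h3
      have h4 := Nat.pow_log_le_self 2 (gpart_pos g I₁ t.1).ne'
      rw [a5] at h4
      have h3' : (t.2.2 : ℝ) ≤ 2 ^ (k + 1) := by exact_mod_cast h3.le
      have h4' : (2 : ℝ) ^ i ≤ gpart g I₁ t.1 := by exact_mod_cast h4
      have h5 : (A : ℝ) * 2 ^ (g * i) ≤ t.1 := by
        rw [d1R, mul_comm g i, pow_mul]
        gcongr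
      gcongr
    have hzx0 : 0 ≤ (t.2.2 : ℝ) / t.1 := by positivity
    constructor
    · refine le_of_pow_le_pow_left₀ (n := g) (by omega) (by positivity) ?_
      rw [hpow]
      have : 0 < ξ ^ g := by positivity
      nlinarith
    · rw [show ξ + ξ * δ = ξ * (1 + δ) by ring]
      refine le_of_pow_le_pow_left₀ (n := g) (by omega) (by positivity) ?_
      rw [hpow, mul_pow]
      gcongr
      calc 1 + (t.2.2 : ℝ) / t.1 ≤ 1 + δ := by linarith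
        _ ≤ (1 + δ) ^ g := by
          exact le_self_pow₀ (by linarith) (by omega)
  have key1 := fiber_card g m (2 ^ (i + 1)) hmpos (F.image φ) ξ (ξ * δ) (by positivity)
    (by
      intro q hq
      obtain ⟨t, ht, rfl⟩ := mem_image.1 hq
      obtain ⟨a1, a2, a3, a4, a5, a6⟩ := hmem t ht
      refine ⟨gpart_pos _ _ _, gpart_pos _ _ _, ?_⟩
      have := Nat.lt_pow_succ_log_self (b := 2) (by norm_num) (gpart g I₁ t.1)
      rw [a5] at this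
      exact this.le)
    (by
      intro q hq
      obtain ⟨t, ht, rfl⟩ := mem_image.1 hq
      obtain ⟨a1, a2, a3, a4, a5, a6⟩ := hmem t ht
      have hTt := hT t a1
      refine ⟨(cop_of_dvd hTt.c12 (gpart_dvd _ _ _) (gpart_dvd _ _ _)).symm, ?_, ?_⟩
      · rw [← a2]; exact cop_of_dvd hTt.c32 (part_dvd _ _) (gpart_dvd _ _ _)
      · rw [← a2]; exact cop_of_dvd hTt.c31 (part_dvd _ _) (gpart_dvd _ _ _))
    (by
      intro q hq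
      obtain ⟨t, ht, rfl⟩ := mem_image.1 hq
      exact hrat t ht)
    (by
      intro q hq q' hq'
      obtain ⟨t, ht, rfl⟩ := mem_image.1 hq
      obtain ⟨t', ht', rfl⟩ := mem_image.1 hq'
      exact cross_mod m B A _ _ _ _ g (-1) (hσ t ht) (hσ t' ht') hcB hcA)
  refine key1.trans ?_
  have hmR : (0 : ℝ) < m := by exact_mod_cast hmpos
  have h3 := Nat.pow_log_le_self 2 (gpart_pos g I₁ t₀.1).ne'
  rw [← hi] at h3
  have h3' : (2 : ℝ) ^ i ≤ gpart g I₁ t₀.1 := by exact_mod_cast h3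
  have h3b := Nat.lt_pow_succ_log_self (b := 2) (by norm_num) (gpart g I₁ t₀.1)
  rw [← hi] at h3b
  have h3b' : (gpart g I₁ t₀.1 : ℝ) ≤ 2 ^ (i + 1) := by exact_mod_cast h3b.le
  have h4 := Nat.pow_log_le_self 2 hT0.p3.ne'
  rw [← hk] at h4
  have h4' : (2 : ℝ) ^ k ≤ t₀.2.2 := by exact_mod_cast h4
  have hx0 : (0 : ℝ) < t₀.1 := by exact_mod_cast hT0.p1
  have hy0 : (0 : ℝ) < t₀.2.1 := by exact_mod_cast hT0.p2
  have hz0 : (0 : ℝ) < t₀.2.2 := by exact_mod_cast hT0.p3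
  have hyx : (t₀.2.1 : ℝ) ≤ 2 * t₀.1 := by
    have h1 := (hrel t₀ ht₀).1
    have h2 := (hrel t₀ ht₀).2
    have : t₀.2.1 ≤ 2 * t₀.1 := by omega
    exact_mod_cast this
  have hu0 : (0 : ℝ) < gpart g I₁ t₀.1 := by exact_mod_cast gpart_pos _ _ _
  have hv0 : (0 : ℝ) < gpart g I₂ t₀.2.1 := by exact_mod_cast gpart_pos _ _ _
  have hd1 := decomp g I₁ h₁ t₀.1 hT0.p1
  rw [← hA] at hd1
  have hd1R : (t₀.1 : ℝ) = A * (gpart g I₁ t₀.1 : ℝ) ^ g := by exact_mod_cast hd1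
  have ht₀F : t₀ ∈ F := mem_filter.2 ⟨ht₀, rfl⟩
  have hξ0 := (hrat t₀ ht₀F).1
  set u := (gpart g I₁ t₀.1 : ℝ) with hu
  set v := (gpart g I₂ t₀.2.1 : ℝ) with hv
  have hδle : δ ≤ 2 ^ (g + 2) * ((t₀.2.2 : ℝ) / t₀.2.1) := by
    rw [hδ, div_le_iff₀ (by positivity)]
    have e1 : (t₀.1 : ℝ) ≤ A * 2 ^ (g * i) * 2 ^ g := by
      rw [hd1R, mul_assoc, mul_comm g i, pow_mul, ← mul_pow, ← pow_succ]
      gcongr
    have e2 : (2 : ℝ) ^ (k + 1) ≤ 2 * t₀.2.2 := by rw [pow_succ]; linarith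
    have e3 : (t₀.2.1 : ℝ) ≤ 2 * (A * 2 ^ (g * i) * 2 ^ g) := by linarith
    refine e2.trans ?_
    rw [show (2 : ℝ) ^ (g + 2) * ((t₀.2.2 : ℝ) / t₀.2.1) * (A * 2 ^ (g * i)) =
      2 * t₀.2.2 * ((2 * (A * 2 ^ (g * i) * 2 ^ g)) / t₀.2.1) by
        rw [pow_add]; field_simp]
    have e4 : 1 ≤ (2 * (A * 2 ^ (g * i) * 2 ^ g)) / (t₀.2.1 : ℝ) := by
      rw [le_div_iff₀ hy0]; linarith
    have e5 : (0 : ℝ) < 2 * t₀.2.2 := by positivity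
    nlinarith
  have h7 : ξ * δ * ((2 ^ (i + 1) : ℕ) : ℝ) ^ 2 / m ≤
      2 ^ (g + 4) * ((t₀.2.2 : ℝ) / t₀.2.1 * u * v / m) := by
    have e1 : ((2 ^ (i + 1) : ℕ) : ℝ) ^ 2 ≤ 4 * u ^ 2 := by
      push_cast
      rw [pow_succ (2 : ℝ) i]
      nlinarith [pow_pos (show (0 : ℝ) < 2 by norm_num) i]
    have e2 : ξ ≤ v / u := hξ0
    calc ξ * δ * ((2 ^ (i + 1) : ℕ) : ℝ) ^ 2 / m
        ≤ (v / u) * (2 ^ (g + 2) * ((t₀.2.2 : ℝ) / t₀.2.1)) * (4 * u ^ 2) / m := by gcongr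
      _ = _ := by
        rw [pow_add, pow_add]
        field_simp
        ring
  have h8 : (1 : ℝ) ≤ max 1 ((t₀.2.2 : ℝ) / t₀.2.1 * u * v / m) := le_max_left _ _
  have h8' : (t₀.2.2 : ℝ) / t₀.2.1 * u * v / m ≤ max 1 ((t₀.2.2 : ℝ) / t₀.2.1 * u * v / m) := le_max_right _ _
  have h9 : 1 + ξ * δ * ((2 ^ (i + 1) : ℕ) : ℝ) ^ 2 / m ≤
      (1 + 2 ^ (g + 4)) * max 1 ((t₀.2.2 : ℝ) / t₀.2.1 * u * v / m) := by
    have e1 : (2 : ℝ) ^ (g + 4) * ((t₀.2.2 : ℝ) / t₀.2.1 * u * v / m) ≤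
      2 ^ (g + 4) * max 1 ((t₀.2.2 : ℝ) / t₀.2.1 * u * v / m) := by gcongr
    rw [add_mul, one_mul]
    linarith
  calc (nroots g m : ℝ) * (1 + ξ * δ * ((2 ^ (i + 1) : ℕ) : ℝ) ^ 2 / m)
      ≤ nroots g m * ((1 + 2 ^ (g + 4)) * max 1 ((t₀.2.2 : ℝ) / t₀.2.1 * u * v / m)) := by gcongr
    _ = _ := by ring

end Cnt

/-! T6: the counting lemma, without and with the archimedean factor -/
theorem count_noarch (g : ℕ) (I₁ I₂ J : Finset ℕ) (hg : 1 ≤ g) (h₁ : Valid g I₁) (h₂ : Valid g I₂)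
    (ε : ℝ) (hε : 0 < ε) :
    ∃ C : ℝ, 0 < C ∧ ∀ X : ℕ, 1 ≤ X → ∀ Y : ℝ, 0 < Y → ∀ T : Finset (ℕ × ℕ × ℕ),
      (∀ t ∈ T, 0 < t.1 ∧ 0 < t.2.1 ∧ 0 < t.2.2 ∧ t.1 ≤ X ∧ t.2.1 ≤ X ∧ t.2.2 ≤ X ∧
        Nat.Coprime t.1 t.2.1 ∧ Nat.Coprime t.2.2 t.1 ∧ Nat.Coprime t.2.2 t.2.1) →
      ((∀ t ∈ T, t.1 + t.2.1 = t.2.2) ∨ (∀ t ∈ T, t.2.2 + t.1 = t.2.1)) →
      (∀ t ∈ T, Q g I₁ I₂ J 1 t.1 t.2.1 t.2.2 ≤ Y) →
      (T.card : ℝ) ≤ C * Y * (X : ℝ) ^ ε := by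
  obtain ⟨C, hC, h⟩ := Cnt.count_core g I₁ I₂ J hg 9 (by norm_num) ε hε
  refine ⟨C, hC, fun X hX Y hY T hT hrel hQ => ?_⟩
  have hTri : ∀ t ∈ T, Cnt.Tri X t := fun t ht => by
    obtain ⟨a, b, c, d, e, f, g, h, i⟩ := hT t ht
    exact ⟨a, b, c, d, e, f, g, h, i⟩
  refine h X hX Y hY T
    (fun t => max 1 ((1 : ℝ) * gpart g I₁ t.1 * gpart g I₂ t.2.1 / part J t.2.2))
    (fun t => (Nat.log 2 (gpart g I₁ t.1), Nat.log 2 (gpart g I₂ t.2.1)))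
    (fun t ht => ⟨(hTri t ht).p1, (hTri t ht).p2, (hTri t ht).p3, (hTri t ht).l1, (hTri t ht).l2, (hTri t ht).l3⟩)
    ?_ (fun t₀ ht₀ => Cnt.fiber_noarch g I₁ I₂ J h₁ h₂ X T hTri hrel t₀ ht₀) hQ
  intro t ht
  have hTt := hTri t ht
  show Nat.log 2 (gpart g I₁ t.1) ≤ Nat.log 2 X ∧ Nat.log 2 (gpart g I₂ t.2.1) ≤ Nat.log 2 X
  exact ⟨Nat.log_mono_right ((Nat.le_of_dvd hTt.p1 (gpart_dvd _ _ _)).trans hTt.l1),
    Nat.log_mono_right ((Nat.le_of_dvd hTt.p2 (gpart_dvd _ _ _)).trans hTt.l2)⟩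

theorem count_arch (g : ℕ) (I₁ I₂ J : Finset ℕ) (hg : 1 ≤ g) (h₁ : Valid g I₁) (h₂ : Valid g I₂)
    (ε : ℝ) (hε : 0 < ε) :
    ∃ C : ℝ, 0 < C ∧ ∀ X : ℕ, 1 ≤ X → ∀ Y : ℝ, 0 < Y → ∀ T : Finset (ℕ × ℕ × ℕ),
      (∀ t ∈ T, 0 < t.1 ∧ 0 < t.2.1 ∧ 0 < t.2.2 ∧ t.1 ≤ X ∧ t.2.1 ≤ X ∧ t.2.2 ≤ X ∧
        Nat.Coprime t.1 t.2.1 ∧ Nat.Coprime t.2.2 t.1 ∧ Nat.Coprime t.2.2 t.2.1) →
      (∀ t ∈ T, t.2.2 + t.1 = t.2.1 ∧ t.2.2 ≤ t.1) →
      (∀ t ∈ T, Q g I₁ I₂ J ((t.2.2 : ℝ) / t.2.1) t.1 t.2.1 t.2.2 ≤ Y) →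
      (T.card : ℝ) ≤ C * Y * (X : ℝ) ^ ε := by
  obtain ⟨C, hC, h⟩ := Cnt.count_core g I₁ I₂ J hg (1 + 2 ^ (g + 4)) (by positivity) ε hε
  refine ⟨C, hC, fun X hX Y hY T hT hrel hQ => ?_⟩
  have hTri : ∀ t ∈ T, Cnt.Tri X t := fun t ht => by
    obtain ⟨a, b, c, d, e, f, g, h, i⟩ := hT t ht
    exact ⟨a, b, c, d, e, f, g, h, i⟩
  refine h X hX Y hY T
    (fun t => max 1 ((t.2.2 : ℝ) / t.2.1 * gpart g I₁ t.1 * gpart g I₂ t.2.1 / part J t.2.2))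
    (fun t => (Nat.log 2 (gpart g I₁ t.1), Nat.log 2 t.2.2))
    (fun t ht => ⟨(hTri t ht).p1, (hTri t ht).p2, (hTri t ht).p3, (hTri t ht).l1, (hTri t ht).l2, (hTri t ht).l3⟩)
    ?_ (fun t₀ ht₀ => Cnt.fiber_arch g I₁ I₂ J hg h₁ h₂ X T hTri hrel t₀ ht₀) hQ
  intro t ht
  have hTt := hTri t ht
  show Nat.log 2 (gpart g I₁ t.1) ≤ Nat.log 2 X ∧ Nat.log 2 t.2.2 ≤ Nat.log 2 X
  exact ⟨Nat.log_mono_right ((Nat.le_of_dvd hTt.p1 (gpart_dvd _ _ _)).trans hTt.l1),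
    Nat.log_mono_right hTt.l3⟩

end Pool.Agent.H335R2.Abc
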