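import Mathlib

set_option autoImplicit false

open Finset

namespace Pool.Agent.H335R2.Abc

/-- the radical of `n` -/
def rad (n : ℕ) : ℕ := ∏ p ∈ n.primeFactors, p

/-- exponent classes: `1,2,3,4` and `5` = at least 5 -/
def cls (e : ℕ) : ℕ := min e 5

/-- all exponent classes -/
def U : Finset ℕ := {1, 2, 3, 4, 5}

/-- the primes of `n` whose exponent class lies in `S` -/
def prS (S : Finset ℕ) (n : ℕ) : Finset ℕ :=
  n.primeFactors.filter (fun p => cls (n.factorization p) ∈ S)

/-- the part of `n` composed of the prime powers whose exponent class lies in `S` -/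
def part (S : Finset ℕ) (n : ℕ) : ℕ := ∏ p ∈ prS S n, p ^ n.factorization p

/-- the radical of `part S n` -/
def rpart (S : Finset ℕ) (n : ℕ) : ℕ := ∏ p ∈ prS S n, p

/-- the `g`-th root of `part S n` (when all the exponents are divisible by `g`) -/
def gpart (g : ℕ) (S : Finset ℕ) (n : ℕ) : ℕ := ∏ p ∈ prS S n, p ^ (n.factorization p / g)

/-- logarithmic radical of the class `k` -/
noncomputable def rd (k n : ℕ) : ℝ := ∑ p ∈ prS {k} n, Real.log p

/-- logarithmic size of the class `k` -/
noncomputable def sz (k n : ℕ) : ℝ := ∑ p ∈ prS {k} n, (n.factorization p : ℝ) * Real.log p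

/-- number of `g`-th roots of unity modulo `m` -/
def nroots (g m : ℕ) : ℕ := ((Finset.range m).filter (fun t => t ^ g ≡ 1 [MOD m])).card

/-- validity of a set of exponent classes for `g` -/
def Valid (g : ℕ) (I : Finset ℕ) : Prop := g = 1 ∨ (1 ≤ g ∧ ∀ k ∈ I, g ∣ k ∧ k ≤ 4)

/-- the counting quantity -/
noncomputable def Q (g : ℕ) (I₁ I₂ J : Finset ℕ) (w : ℝ) (x y z : ℕ) : ℝ :=
  (rpart J z : ℝ) * rpart (U \ I₁) x * rpart (U \ I₂) y *
    max 1 (w * gpart g I₁ x * gpart g I₂ y / part J z)

end Pool.Agent.H335R2.Abc
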