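import Pool.Agent.H335R2.Abc.Sem
import Pool.Agent.H335R2.Abc.LPData

set_option autoImplicit false

open Finset

namespace Pool.Agent.H335R2.Abc

theorem okMask_valid (g m : ℕ) (h : okMask g m = true) : Valid g (SS m) ∧ 1 ≤ g ∧ g ≤ 4 := by
  match g, h with
  | 1, h => exact ⟨Or.inl rfl, by norm_num, by norm_num⟩
  | 2, h =>
    refine ⟨Or.inr ⟨by norm_num, ?_⟩, by norm_num, by norm_num⟩
    simp only [okMask, Bool.or_eq_true] at h
    rcases h with ((h | h) | h) | h <;>
    · have := Nat.eq_of_beq_eq_true h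
      subst this
      decide
  | 3, h =>
    refine ⟨Or.inr ⟨by norm_num, ?_⟩, by norm_num, by norm_num⟩
    simp only [okMask, Bool.or_eq_true] at h
    rcases h with h | h <;>
    · have := Nat.eq_of_beq_eq_true h
      subst this
      decide
  | 4, h =>
    refine ⟨Or.inr ⟨by norm_num, ?_⟩, by norm_num, by norm_num⟩
    simp only [okMask, Bool.or_eq_true] at h
    rcases h with h | h <;>
    · have := Nat.eq_of_beq_eq_true h
      subst this
      decide

theorem log_expand (n : ℕ) (hn : n ≠ 0) : Real.log n =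
    rd 1 n + 2 * rd 2 n + 3 * rd 3 n + 4 * rd 4 n + sz 5 n := by
  rw [log_eq n hn]
  simp only [U]
  rw [Finset.sum_insert (by decide), Finset.sum_insert (by decide), Finset.sum_insert (by decide),
    Finset.sum_insert (by decide), Finset.sum_singleton,
    sz_eq 1 n (by norm_num), sz_eq 2 n (by norm_num), sz_eq 3 n (by norm_num),
    sz_eq 4 n (by norm_num)]
  push_cast; ring

theorem log_rad_expand (n : ℕ) : Real.log (rad n) =
    rd 1 n + rd 2 n + rd 3 n + rd 4 n + rd 5 n := by
  rw [log_rad n]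
  simp only [U]
  rw [Finset.sum_insert (by decide), Finset.sum_insert (by decide), Finset.sum_insert (by decide),
    Finset.sum_insert (by decide), Finset.sum_singleton]
  ring

theorem Q_cases (g i₁ i₂ j : ℕ) (h₁ : Valid g (SS i₁)) (h₂ : Valid g (SS i₂)) (w : ℝ) (hw : 0 < w)
    (x y z : ℕ) :
    Real.log (Q g (SS i₁) (SS i₂) (SS j) w x y z) = lbase i₁ i₂ j x y z ∨
    Real.log (Q g (SS i₁) (SS i₂) (SS j) w x y z) = lfull g i₁ i₂ j x y z (Real.log w) := by
  have p1 : (0 : ℝ) < rpart (SS j) z := by exact_mod_cast rpart_pos _ _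
  have p2 : (0 : ℝ) < rpart (U \ SS i₁) x := by exact_mod_cast rpart_pos _ _
  have p3 : (0 : ℝ) < rpart (U \ SS i₂) y := by exact_mod_cast rpart_pos _ _
  have p4 : (0 : ℝ) < gpart g (SS i₁) x := by exact_mod_cast gpart_pos _ _ _
  have p5 : (0 : ℝ) < gpart g (SS i₂) y := by exact_mod_cast gpart_pos _ _ _
  have p6 : (0 : ℝ) < part (SS j) z := by exact_mod_cast part_pos _ _
  have hb : Real.log ((rpart (SS j) z : ℝ) * rpart (U \ SS i₁) x * rpart (U \ SS i₂) y) =
      lbase i₁ i₂ j x y z := by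
    rw [Real.log_mul (by positivity) (by positivity), Real.log_mul (by positivity) (by positivity),
      log_rpart, log_rpart, log_rpart]
    rfl
  unfold Q
  rcases le_total 1 (w * gpart g (SS i₁) x * gpart g (SS i₂) y / part (SS j) z) with h | h
  · right
    rw [max_eq_right h, Real.log_mul (by positivity) (by positivity), hb,
      Real.log_div (by positivity) (by positivity), Real.log_mul (by positivity) (by positivity),
      Real.log_mul (by positivity) (by positivity), log_gpart g _ h₁, log_gpart g _ h₂, log_part]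
    rfl
  · left
    rw [max_eq_left h, mul_one, hb]

/-- the counting quantity of a code -/
noncomputable def QQ (τ g i₁ i₂ j a b c : ℕ) : ℝ :=
  if τ = 0 then Q g (SS i₁) (SS i₂) (SS j) ((a : ℝ) / c) b c a
  else if τ = 1 then Q g (SS i₁) (SS i₂) (SS j) 1 a c b
  else Q g (SS i₁) (SS i₂) (SS j) 1 a b c

theorem Q_pos (g : ℕ) (I₁ I₂ J : Finset ℕ) (w : ℝ) (x y z : ℕ) : 0 < Q g I₁ I₂ J w x y z := by
  have p1 : (0 : ℝ) < rpart J z := by exact_mod_cast rpart_pos _ _
  have p2 : (0 : ℝ) < rpart (U \ I₁) x := by exact_mod_cast rpart_pos _ _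
  have p3 : (0 : ℝ) < rpart (U \ I₂) y := by exact_mod_cast rpart_pos _ _
  unfold Q
  have : (0:ℝ) < max 1 (w * gpart g I₁ x * gpart g I₂ y / part J z) := lt_max_of_lt_left one_pos
  positivity

theorem xv_nonneg (a b c : ℕ) (L : ℝ) (hL : 0 < L) (i : ℕ) : 0 ≤ xv a b c L i := by
  have h5 : ∀ n, 0 ≤ sz 5 n := fun n => by
    have := sz_ge n; have := rd_nonneg 5 n; linarith
  unfold xv
  split <;> first
    | exact div_nonneg (rd_nonneg _ _) hL.le
    | exact div_nonneg (h5 _) hL.le
    | norm_num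

theorem poly_holds (a b c : ℕ) (ha : 0 < a) (hb : 0 < b) (hc : 0 < c) (L : ℝ) (hL : 0 < L)
    (h1 : Real.log a ≤ L) (h2 : Real.log b ≤ L) (h3 : 0.9999 * L ≤ Real.log b)
    (h4 : Real.log c = L)
    (h5 : Real.log (rad a) + Real.log (rad b) + Real.log (rad c) ≤ L) :
    ∀ k ∈ poly, k.holds (xv a b c L) := by
  rw [log_expand a ha.ne'] at h1
  rw [log_expand b hb.ne'] at h2 h3
  rw [log_expand c hc.ne'] at h4
  rw [log_rad_expand, log_rad_expand, log_rad_expand] at h5
  have ga := sz_ge a
  have gb := sz_ge b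
  have gc := sz_ge c
  intro k hk
  simp only [poly, List.mem_cons, List.not_mem_nil, or_false] at hk
  rcases hk with rfl | rfl | rfl | rfl | rfl | rfl | rfl | rfl | rfl <;>
  · simp only [Con.holds, zer, List.cons_append, List.nil_append, ev, xv]
    push_cast
    field_simp
    linarith

theorem exists_code (a b c : ℕ) (ha : 0 < a) (hab : a ≤ b) (hc : a + b = c)
    (hcop : Nat.Coprime a b) (hr : rad (a * b * c) < c) (hbig : 10000 * Real.log 2 ≤ Real.log c) :
    ∃ τ g i₁ i₂ j, okCode τ g i₁ i₂ j = true ∧ QQ τ g i₁ i₂ j a b c ≤ (c : ℝ) ^ (0.6018 : ℝ) := by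
  have hb : 0 < b := by omega
  have hc0 : 0 < c := by omega
  have hcR : (0 : ℝ) < c := by exact_mod_cast hc0
  have haR : (0 : ℝ) < a := by exact_mod_cast ha
  have hbR : (0 : ℝ) < b := by exact_mod_cast hb
  have hl2 : 0 < Real.log 2 := Real.log_pos (by norm_num)
  set L := Real.log c with hLdef
  have hL : 0 < L := by linarith
  have hac : Nat.Coprime a c := by rw [← hc]; simpa using hcop
  have hbc : Nat.Coprime b c := by rw [← hc]; simpa using hcop.symm
  have h1 : Real.log a ≤ L := Real.log_le_log haR (by exact_mod_cast (by omega : a ≤ c))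
  have h2 : Real.log b ≤ L := Real.log_le_log hbR (by exact_mod_cast (by omega : b ≤ c))
  have h3 : 0.9999 * L ≤ Real.log b := by
    have : L ≤ Real.log 2 + Real.log b := by
      rw [← Real.log_mul (by norm_num) hbR.ne']
      apply Real.log_le_log hcR
      have : c ≤ 2 * b := by omega
      exact_mod_cast this
    linarith
  have h5 : Real.log (rad a) + Real.log (rad b) + Real.log (rad c) ≤ L := by
    have hp : ∀ n, (0 : ℝ) < rad n := fun n => by
      have : 0 < rad n := Finset.prod_pos fun p hp => (Nat.prime_of_mem_primeFactors hp).pos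
      exact_mod_cast this
    rw [← Real.log_mul (hp a).ne' (hp b).ne', ← Real.log_mul (by have := hp a; have := hp b; positivity) (hp c).ne']
    have e := rad_mul3 a b c hcop hac hbc ha.ne' hb.ne' hc0.ne'
    have : ((rad a : ℝ) * rad b * rad c) = (rad (a * b * c) : ℝ) := by rw [e]; push_cast; ring
    rw [this]
    exact Real.log_le_log (hp _) (by exact_mod_cast hr.le)
  by_contra hcon
  push Not at hcon
  refine check_sound (xv a b c L) rfl (xv_nonneg a b c L hL) ?_ tree poly
    (poly_holds a b c ha hb hc0 L hL h1 h2 h3 rfl h5) tree_ok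
  intro τ g i₁ i₂ j hok
  have hQ := hcon τ g i₁ i₂ j hok
  simp only [okCode, Bool.and_eq_true] at hok
  obtain ⟨⟨⟨hτ, hm1⟩, hm2⟩, hj⟩ := hok
  have hτ' : τ ≤ 2 := Nat.le_of_ble_eq_true hτ
  obtain ⟨v1, hg1, hg4⟩ := okMask_valid g i₁ hm1
  obtain ⟨v2, -, -⟩ := okMask_valid g i₂ hm2
  have hlog : 0.6018 * L < Real.log (QQ τ g i₁ i₂ j a b c) := by
    have := Real.log_lt_log (by positivity) hQ
    rwa [Real.log_rpow hcR] at this
  have hτ3 : τ = 0 ∨ τ = 1 ∨ τ = 2 := by omega
  rcases hτ3 with rfl | rfl | rfl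
  · simp only [QQ, if_true] at hlog
    rcases Q_cases g i₁ i₂ j v1 v2 ((a : ℝ) / c) (by positivity) b c a with h | h
    · left; rw [h] at hlog; exact base0 a b c L hL i₁ i₂ j hlog.le
    · right; rw [h] at hlog
      refine full0 a b c L hL g i₁ i₂ j hg1 hg4 ?_
      rw [← log_expand a ha.ne', hLdef, ← Real.log_div haR.ne' hcR.ne']
      exact hlog.le
  · simp only [QQ, one_ne_zero, if_false, if_true] at hlog
    rcases Q_cases g i₁ i₂ j v1 v2 1 one_pos a c b with h | h
    · left; rw [h] at hlog; exact base1 a b c L hL i₁ i₂ j hlog.le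
    · right; rw [h, Real.log_one] at hlog; exact full1 a b c L hL g i₁ i₂ j hg1 hg4 hlog.le
  · simp only [QQ, OfNat.ofNat_ne_zero, OfNat.ofNat_ne_one, if_false] at hlog
    rcases Q_cases g i₁ i₂ j v1 v2 1 one_pos a b c with h | h
    · left; rw [h] at hlog; exact base2 a b c L hL i₁ i₂ j hlog.le
    · right; rw [h, Real.log_one] at hlog; exact full2 a b c L hL g i₁ i₂ j hg1 hg4 hlog.le

end Pool.Agent.H335R2.Abc
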