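import Pool.Agent.H335R2.Abc.Exists
import Pool.Agent.H335R2.Abc.Count

set_option autoImplicit false

open Finset

namespace Pool.Agent.H335R2.Abc

/-- counting for one code -/
theorem code_count (τ g i₁ i₂ j : ℕ) (hok : okCode τ g i₁ i₂ j = true) :
    ∃ C : ℝ, 0 < C ∧ ∀ X : ℕ, 1 ≤ X → ∀ T : Finset (ℕ × ℕ × ℕ),
      (∀ t ∈ T, 0 < t.1 ∧ t.1 ≤ t.2.1 ∧ t.1 + t.2.1 = t.2.2 ∧ t.2.2 ≤ X ∧ Nat.Coprime t.1 t.2.1 ∧
        QQ τ g i₁ i₂ j t.1 t.2.1 t.2.2 ≤ (X : ℝ) ^ (0.6018 : ℝ)) →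
      (T.card : ℝ) ≤ C * (X : ℝ) ^ (0.602 : ℝ) := by
  have hok' := hok
  simp only [okCode, Bool.and_eq_true] at hok
  obtain ⟨⟨⟨hτ, hm1⟩, hm2⟩, hj⟩ := hok
  have hτ' : τ ≤ 2 := Nat.le_of_ble_eq_true hτ
  obtain ⟨v1, hg1, hg4⟩ := okMask_valid g i₁ hm1
  obtain ⟨v2, -, -⟩ := okMask_valid g i₂ hm2
  have key : ∀ C : ℝ, ∀ X : ℕ, 1 ≤ X → C * (X : ℝ) ^ (0.6018 : ℝ) * (X : ℝ) ^ (0.0002 : ℝ) =
      C * (X : ℝ) ^ (0.602 : ℝ) := by
    intro C X hX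
    have hX' : (0 : ℝ) < X := by exact_mod_cast hX
    rw [mul_assoc, ← Real.rpow_add hX']
    norm_num
  have cop : ∀ a b c : ℕ, a + b = c → Nat.Coprime a b → Nat.Coprime a c ∧ Nat.Coprime b c := by
    intro a b c h hc
    subst h
    exact ⟨by simpa using hc, by simpa using hc.symm⟩
  have hτ3 : τ = 0 ∨ τ = 1 ∨ τ = 2 := by omega
  rcases hτ3 with rfl | rfl | rfl
  · obtain ⟨C, hC, h⟩ := count_arch g (SS i₁) (SS i₂) (SS j) hg1 v1 v2 0.0002 (by norm_num)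
    refine ⟨C, hC, fun X hX T hT => ?_⟩
    have hX' : (0 : ℝ) < X := by exact_mod_cast hX
    have hinj : Set.InjOn (fun t : ℕ × ℕ × ℕ => ((t.2.1, t.2.2, t.1) : ℕ × ℕ × ℕ)) (T : Set (ℕ × ℕ × ℕ)) := by
      intro t _ t' _ he
      simp only [Prod.mk.injEq] at he
      exact Prod.ext he.2.2 (Prod.ext he.1 he.2.1)
    have := h X hX ((X : ℝ) ^ (0.6018 : ℝ)) (by positivity)
      (T.image (fun t : ℕ × ℕ × ℕ => ((t.2.1, t.2.2, t.1) : ℕ × ℕ × ℕ))) ?_ ?_ ?_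
    · rw [Finset.card_image_of_injOn hinj, key C X hX] at this
      exact this
    · intro t ht
      obtain ⟨s, hs, rfl⟩ := Finset.mem_image.mp ht
      obtain ⟨a1, a2, a3, a4, a5, a6⟩ := hT s hs
      obtain ⟨c1, c2⟩ := cop _ _ _ a3 a5
      exact ⟨by simp only; omega, by simp only; omega, by simp only; omega, by simp only; omega,
        by simp only; omega, by simp only; omega, c2, a5, c1⟩
    · intro t ht
      obtain ⟨s, hs, rfl⟩ := Finset.mem_image.mp ht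
      obtain ⟨a1, a2, a3, a4, a5, a6⟩ := hT s hs
      exact ⟨a3, a2⟩
    · intro t ht
      obtain ⟨s, hs, rfl⟩ := Finset.mem_image.mp ht
      obtain ⟨a1, a2, a3, a4, a5, a6⟩ := hT s hs
      simpa [QQ] using a6
  · obtain ⟨C, hC, h⟩ := count_noarch g (SS i₁) (SS i₂) (SS j) hg1 v1 v2 0.0002 (by norm_num)
    refine ⟨C, hC, fun X hX T hT => ?_⟩
    have hX' : (0 : ℝ) < X := by exact_mod_cast hX
    have hinj : Set.InjOn (fun t : ℕ × ℕ × ℕ => ((t.1, t.2.2, t.2.1) : ℕ × ℕ × ℕ)) (T : Set (ℕ × ℕ × ℕ)) := by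
      intro t _ t' _ he
      simp only [Prod.mk.injEq] at he
      exact Prod.ext he.1 (Prod.ext he.2.2 he.2.1)
    have := h X hX ((X : ℝ) ^ (0.6018 : ℝ)) (by positivity)
      (T.image (fun t : ℕ × ℕ × ℕ => ((t.1, t.2.2, t.2.1) : ℕ × ℕ × ℕ))) ?_ (Or.inr ?_) ?_
    · rw [Finset.card_image_of_injOn hinj, key C X hX] at this
      exact this
    · intro t ht
      obtain ⟨s, hs, rfl⟩ := Finset.mem_image.mp ht
      obtain ⟨a1, a2, a3, a4, a5, a6⟩ := hT s hs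
      obtain ⟨c1, c2⟩ := cop _ _ _ a3 a5
      exact ⟨by simp only; omega, by simp only; omega, by simp only; omega, by simp only; omega,
        by simp only; omega, by simp only; omega, c1, a5.symm, c2⟩
    · intro t ht
      obtain ⟨s, hs, rfl⟩ := Finset.mem_image.mp ht
      obtain ⟨a1, a2, a3, a4, a5, a6⟩ := hT s hs
      simp only; omega
    · intro t ht
      obtain ⟨s, hs, rfl⟩ := Finset.mem_image.mp ht
      obtain ⟨a1, a2, a3, a4, a5, a6⟩ := hT s hs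
      simpa [QQ] using a6
  · obtain ⟨C, hC, h⟩ := count_noarch g (SS i₁) (SS i₂) (SS j) hg1 v1 v2 0.0002 (by norm_num)
    refine ⟨C, hC, fun X hX T hT => ?_⟩
    have hX' : (0 : ℝ) < X := by exact_mod_cast hX
    have := h X hX ((X : ℝ) ^ (0.6018 : ℝ)) (by positivity) T ?_ (Or.inl ?_) ?_
    · rw [key C X hX] at this
      exact this
    · intro s hs
      obtain ⟨a1, a2, a3, a4, a5, a6⟩ := hT s hs
      obtain ⟨c1, c2⟩ := cop _ _ _ a3 a5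
      exact ⟨a1, by omega, by omega, by omega, by omega, a4, a5, c1.symm, c2.symm⟩
    · intro s hs
      exact (hT s hs).2.2.1
    · intro s hs
      simpa [QQ] using (hT s hs).2.2.2.2.2

/-- all codes -/
def codes : Finset (ℕ × ℕ × ℕ × ℕ × ℕ) :=
  Finset.range 3 ×ˢ Finset.range 5 ×ˢ Finset.range 32 ×ˢ Finset.range 32 ×ˢ Finset.range 32

theorem mem_codes (τ g i₁ i₂ j : ℕ) (hok : okCode τ g i₁ i₂ j = true) :
    (τ, g, i₁, i₂, j) ∈ codes := by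
  simp only [okCode, Bool.and_eq_true] at hok
  obtain ⟨⟨⟨hτ, hm1⟩, hm2⟩, hj⟩ := hok
  have hτ' : τ ≤ 2 := Nat.le_of_ble_eq_true hτ
  have hj' : j ≤ 31 := Nat.le_of_ble_eq_true hj
  obtain ⟨v1, hg1, hg4⟩ := okMask_valid g i₁ hm1
  have hm : ∀ g m, okMask g m = true → m ≤ 31 := by
    intro g m h
    match g, h with
    | 1, h => exact Nat.le_of_ble_eq_true h
    | 2, h =>
      simp only [okMask, Bool.or_eq_true] at h
      rcases h with ((h | h) | h) | h <;> (have := Nat.eq_of_beq_eq_true h; omega)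
    | 3, h =>
      simp only [okMask, Bool.or_eq_true] at h
      rcases h with h | h <;> (have := Nat.eq_of_beq_eq_true h; omega)
    | 4, h =>
      simp only [okMask, Bool.or_eq_true] at h
      rcases h with h | h <;> (have := Nat.eq_of_beq_eq_true h; omega)
  have h1 := hm g i₁ hm1
  have h2 := hm g i₂ hm2
  simp only [codes, Finset.mem_product, Finset.mem_range]
  exact ⟨by omega, by omega, by omega, by omega, by omega⟩

/-- the abc-triples `(a,b,c)` with `c ≤ X` and `rad (abc) < c` -/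
def exc (X : ℕ) : Finset (ℕ × ℕ × ℕ) :=
  (Finset.Icc 1 X ×ˢ Finset.Icc 1 X ×ˢ Finset.Icc 1 X).filter
    (fun t => t.1 + t.2.1 = t.2.2 ∧ Nat.Coprime t.1 t.2.1 ∧ rad (t.1 * t.2.1 * t.2.2) < t.2.2)

theorem exists_code' (a b c : ℕ) (ha : 0 < a) (hab : a ≤ b) (hc : a + b = c)
    (hcop : Nat.Coprime a b) (hr : rad (a * b * c) < c) (hbig : 10000 * Real.log 2 ≤ Real.log c) :
    ∃ κ ∈ codes, okCode κ.1 κ.2.1 κ.2.2.1 κ.2.2.2.1 κ.2.2.2.2 = true ∧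
      QQ κ.1 κ.2.1 κ.2.2.1 κ.2.2.2.1 κ.2.2.2.2 a b c ≤ (c : ℝ) ^ (0.6018 : ℝ) := by
  obtain ⟨τ, g, i₁, i₂, j, hok, hQ⟩ := exists_code a b c ha hab hc hcop hr hbig
  exact ⟨(τ, g, i₁, i₂, j), mem_codes _ _ _ _ _ hok, hok, hQ⟩

attribute [local irreducible] codes

theorem half_count : ∃ C : ℝ, 0 < C ∧ ∀ X : ℕ, 1 ≤ X →
    ((((exc X).filter (fun t => t.1 ≤ t.2.1 ∧ 10000 * Real.log 2 ≤ Real.log t.2.2)).card : ℝ)
      ≤ C * (X : ℝ) ^ (0.602 : ℝ)) := by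
  classical
  have hex : ∀ κ : ℕ × ℕ × ℕ × ℕ × ℕ, ∃ C : ℝ, 0 < C ∧
      (okCode κ.1 κ.2.1 κ.2.2.1 κ.2.2.2.1 κ.2.2.2.2 = true →
      ∀ X : ℕ, 1 ≤ X → ∀ T : Finset (ℕ × ℕ × ℕ),
      (∀ t ∈ T, 0 < t.1 ∧ t.1 ≤ t.2.1 ∧ t.1 + t.2.1 = t.2.2 ∧ t.2.2 ≤ X ∧ Nat.Coprime t.1 t.2.1 ∧
        QQ κ.1 κ.2.1 κ.2.2.1 κ.2.2.2.1 κ.2.2.2.2 t.1 t.2.1 t.2.2 ≤ (X : ℝ) ^ (0.6018 : ℝ)) →
      (T.card : ℝ) ≤ C * (X : ℝ) ^ (0.602 : ℝ)) := by
    intro κ
    by_cases h : okCode κ.1 κ.2.1 κ.2.2.1 κ.2.2.2.1 κ.2.2.2.2 = true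
    · obtain ⟨C, hC, h'⟩ := code_count _ _ _ _ _ h
      exact ⟨C, hC, fun _ => h'⟩
    · exact ⟨1, one_pos, fun h' => absurd h' h⟩
  choose C hC hcount using hex
  refine ⟨∑ κ ∈ codes, C κ + 1, by
    have : 0 ≤ ∑ κ ∈ codes, C κ := Finset.sum_nonneg fun κ _ => (hC κ).le
    linarith, fun X hX => ?_⟩
  have hX' : (0 : ℝ) < X := by exact_mod_cast hX
  set E := (exc X).filter (fun t => t.1 ≤ t.2.1 ∧ 10000 * Real.log 2 ≤ Real.log t.2.2) with hE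
  let Eκ : (ℕ × ℕ × ℕ × ℕ × ℕ) → Finset (ℕ × ℕ × ℕ) := fun κ =>
    if okCode κ.1 κ.2.1 κ.2.2.1 κ.2.2.2.1 κ.2.2.2.2 = true then
      E.filter (fun t => QQ κ.1 κ.2.1 κ.2.2.1 κ.2.2.2.1 κ.2.2.2.2 t.1 t.2.1 t.2.2 ≤ (X : ℝ) ^ (0.6018 : ℝ))
    else ∅
  have hmem : ∀ t ∈ E, 0 < t.1 ∧ t.1 ≤ t.2.1 ∧ t.1 + t.2.1 = t.2.2 ∧ t.2.2 ≤ X ∧
      Nat.Coprime t.1 t.2.1 ∧ rad (t.1 * t.2.1 * t.2.2) < t.2.2 ∧
      10000 * Real.log 2 ≤ Real.log t.2.2 := by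
    intro t ht
    simp only [hE, exc, Finset.mem_filter, Finset.mem_product, Finset.mem_Icc] at ht
    obtain ⟨⟨⟨h1, h2, h3⟩, h4, h5, h6⟩, h7, h8⟩ := ht
    exact ⟨by omega, h7, h4, by omega, h5, h6, h8⟩
  have hsub : E ⊆ codes.biUnion Eκ := by
    intro t ht
    have hh := hmem t ht
    have h4 := hh.2.2.2.1
    obtain ⟨κ, hκ, hok, hQ⟩ := exists_code' t.1 t.2.1 t.2.2 hh.1 hh.2.1 hh.2.2.1
      hh.2.2.2.2.1 hh.2.2.2.2.2.1 hh.2.2.2.2.2.2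
    refine Finset.mem_biUnion.mpr ⟨κ, hκ, ?_⟩
    simp only [Eκ, hok, if_true, Finset.mem_filter]
    refine ⟨ht, hQ.trans ?_⟩
    exact Real.rpow_le_rpow (by positivity) (by exact_mod_cast h4) (by norm_num)
  have hcard : ∀ κ ∈ codes, ((Eκ κ).card : ℝ) ≤ C κ * (X : ℝ) ^ (0.602 : ℝ) := by
    intro κ _
    simp only [Eκ]
    split_ifs with h
    · refine hcount κ h X hX _ ?_
      intro t ht
      have ht' := Finset.mem_filter.mp ht
      have hh := hmem t ht'.1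
      exact ⟨hh.1, hh.2.1, hh.2.2.1, hh.2.2.2.1, hh.2.2.2.2.1, ht'.2⟩
    · have := hC κ
      simp only [Finset.card_empty, Nat.cast_zero]
      positivity
  calc (E.card : ℝ) ≤ ((codes.biUnion Eκ).card : ℝ) := by exact_mod_cast Finset.card_le_card hsub
    _ ≤ ((∑ κ ∈ codes, (Eκ κ).card : ℕ) : ℝ) := by exact_mod_cast Finset.card_biUnion_le
    _ = ∑ κ ∈ codes, ((Eκ κ).card : ℝ) := by push_cast; rfl
    _ ≤ ∑ κ ∈ codes, C κ * (X : ℝ) ^ (0.602 : ℝ) := Finset.sum_le_sum hcard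
    _ = (∑ κ ∈ codes, C κ) * (X : ℝ) ^ (0.602 : ℝ) := by rw [Finset.sum_mul]
    _ ≤ (∑ κ ∈ codes, C κ + 1) * (X : ℝ) ^ (0.602 : ℝ) := by
        have : (0 : ℝ) < (X : ℝ) ^ (0.602 : ℝ) := by positivity
        nlinarith

/-- the exceptional set of the abc conjecture -/
theorem exc_count : ∃ C : ℝ, 0 < C ∧ ∀ X : ℕ, 1 ≤ X →
    ((exc X).card : ℝ) ≤ C * (X : ℝ) ^ (0.602 : ℝ) := by
  classical
  obtain ⟨C, hC, h⟩ := half_count
  obtain ⟨N, hN⟩ := exists_nat_gt (Real.exp (10000 * Real.log 2))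
  refine ⟨2 * C + (N : ℝ) ^ 3, by positivity, fun X hX => ?_⟩
  have hX' : (0 : ℝ) < X := by exact_mod_cast hX
  have hX1 : (1 : ℝ) ≤ X := by exact_mod_cast hX
  set A := (exc X).filter (fun t => t.1 ≤ t.2.1 ∧ 10000 * Real.log 2 ≤ Real.log t.2.2) with hA
  set B := A.image (fun t : ℕ × ℕ × ℕ => ((t.2.1, t.1, t.2.2) : ℕ × ℕ × ℕ)) with hB
  set D := (Finset.Icc 1 N ×ˢ Finset.Icc 1 N ×ˢ Finset.Icc 1 N) with hD
  have hsub : exc X ⊆ (A ∪ B) ∪ D := by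
    intro t ht
    by_cases hbig : 10000 * Real.log 2 ≤ Real.log t.2.2
    · apply Finset.mem_union_left
      rcases le_total t.1 t.2.1 with hle | hle
      · exact Finset.mem_union_left _ (Finset.mem_filter.mpr ⟨ht, hle, hbig⟩)
      · apply Finset.mem_union_right
        refine Finset.mem_image.mpr ⟨(t.2.1, t.1, t.2.2), ?_, rfl⟩
        refine Finset.mem_filter.mpr ⟨?_, hle, hbig⟩
        simp only [exc, Finset.mem_filter, Finset.mem_product, Finset.mem_Icc] at ht ⊢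
        obtain ⟨⟨h1, h2, h3⟩, h4, h5, h6⟩ := ht
        exact ⟨⟨h2, h1, h3⟩, by omega, h5.symm, by rwa [mul_comm t.2.1 t.1]⟩
    · apply Finset.mem_union_right
      simp only [exc, Finset.mem_filter, Finset.mem_product, Finset.mem_Icc] at ht
      obtain ⟨⟨h1, h2, h3⟩, h4, h5, h6⟩ := ht
      have hc : t.2.2 ≤ N := by
        push Not at hbig
        have hpos : (0 : ℝ) < t.2.2 := by exact_mod_cast (by omega : 0 < t.2.2)
        have : (t.2.2 : ℝ) < Real.exp (10000 * Real.log 2) := by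
          rw [← Real.exp_log hpos]; exact Real.exp_lt_exp.mpr hbig
        have : (t.2.2 : ℝ) < N := this.trans hN
        exact_mod_cast this.le
      simp only [hD, Finset.mem_product, Finset.mem_Icc]
      exact ⟨⟨by omega, by omega⟩, ⟨by omega, by omega⟩, ⟨by omega, hc⟩⟩
  have hBA : B.card ≤ A.card := Finset.card_image_le
  have hDc : D.card = N ^ 3 := by
    simp only [hD, Finset.card_product, Nat.card_Icc, Nat.add_sub_cancel]; ring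
  have h1 : (exc X).card ≤ A.card + B.card + D.card :=
    (Finset.card_le_card hsub).trans ((Finset.card_union_le _ _).trans
      (Nat.add_le_add_right (Finset.card_union_le _ _) _))
  have h2 : ((exc X).card : ℝ) ≤ A.card + A.card + (N : ℝ) ^ 3 := by
    have : (exc X).card ≤ A.card + A.card + N ^ 3 := by omega
    exact_mod_cast this
  have h3 := h X hX
  have h4 : (1 : ℝ) ≤ (X : ℝ) ^ (0.602 : ℝ) := Real.one_le_rpow hX1 (by norm_num)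
  have h5 : (N : ℝ) ^ 3 ≤ (N : ℝ) ^ 3 * (X : ℝ) ^ (0.602 : ℝ) := by
    have : (0 : ℝ) ≤ (N : ℝ) ^ 3 := by positivity
    nlinarith
  calc ((exc X).card : ℝ) ≤ A.card + A.card + (N : ℝ) ^ 3 := h2
    _ ≤ C * (X : ℝ) ^ (0.602 : ℝ) + C * (X : ℝ) ^ (0.602 : ℝ) + (N : ℝ) ^ 3 * (X : ℝ) ^ (0.602 : ℝ) := by
        linarith
    _ = (2 * C + (N : ℝ) ^ 3) * (X : ℝ) ^ (0.602 : ℝ) := by ring

end Pool.Agent.H335R2.Abc
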