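import Mathlib

set_option autoImplicit false

namespace Pool.Agent.H335R2.Abc

/-- vectors of natural coefficients; the constant coordinate comes first -/
abbrev Vec := List ℕ

def ev : Vec → (ℕ → ℝ) → ℝ
  | [], _ => 0
  | a :: t, x => (a : ℝ) * x 0 + ev t (fun i => x (i + 1))

def addk (k : ℕ) : Vec → Vec → Vec
  | [], v => v
  | a :: u, [] => (k * a) :: addk k u []
  | a :: u, b :: v => (k * a + b) :: addk k u v

def leV : Vec → Vec → Bool
  | [], _ => true
  | a :: u, [] => Nat.beq a 0 && leV u []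
  | a :: u, b :: v => Nat.ble a b && leV u v

def ltV : Vec → Vec → Bool
  | a :: u, b :: v => Nat.ble (a + 1) b && leV u v
  | _, _ => false

/-- the linear inequality `n ≤ p` -/
structure Con where
  p : Vec
  n : Vec

def Con.holds (c : Con) (x : ℕ → ℝ) : Prop := ev c.n x ≤ ev c.p x

def comb : List ℕ → List Con → Vec × Vec
  | k :: ks, c :: cs =>
    if Nat.beq k 0 then comb ks cs
    else (addk k c.p (comb ks cs).1, addk k c.n (comb ks cs).2)
  | _, _ => ([], [])

inductive Tr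
  | leaf (l : List ℕ)
  | node (τ g i₁ i₂ j : ℕ) (l r : Tr)

def bit (m k : ℕ) : ℕ := if m.testBit k then 1 else 0

/-- the scale -/
def SC : ℕ := 60000

/-- constant block, base value of a term whose chosen classes are `m` -/
def muB (m : ℕ) : Vec :=
  [SC * (1 - bit m 0), SC * (1 - bit m 1), SC * (1 - bit m 2), SC * (1 - bit m 3),
   SC * (1 - bit m 4), 0]

def muF (g m : ℕ) : Vec :=
  [SC * (1 - bit m 0) + SC / g * bit m 0, SC * (1 - bit m 1) + SC / g * 2 * bit m 1,
   SC * (1 - bit m 2) + SC / g * 3 * bit m 2, SC * (1 - bit m 3) + SC / g * 4 * bit m 3,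
   SC * (1 - bit m 4), SC / g * bit m 4]

def tauP (m : ℕ) : Vec :=
  [SC * bit m 0, SC * bit m 1, SC * bit m 2, SC * bit m 3, SC * bit m 4, 0]

def tauN (m : ℕ) : Vec :=
  [SC * bit m 0, SC * 2 * bit m 1, SC * 3 * bit m 2, SC * 4 * bit m 3, 0, SC * bit m 4]

def tauPA (m : ℕ) : Vec :=
  [SC * bit m 0 + SC, SC * bit m 1 + SC * 2, SC * bit m 2 + SC * 3, SC * bit m 3 + SC * 4,
   SC * bit m 4, SC]

def zer : Vec := [0, 0, 0, 0, 0, 0]

/-- threshold `36108 / 60000 = 0.6018` -/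
def baseC (τ i₁ i₂ j : ℕ) : Con :=
  if Nat.beq τ 0 then ⟨0 :: (tauP j ++ (muB i₁ ++ muB i₂)), [36108]⟩
  else if Nat.beq τ 1 then ⟨0 :: (muB i₁ ++ (tauP j ++ muB i₂)), [36108]⟩
  else ⟨0 :: (muB i₁ ++ (muB i₂ ++ tauP j)), [36108]⟩

def fullC (τ g i₁ i₂ j : ℕ) : Con :=
  if Nat.beq τ 0 then ⟨0 :: (tauPA j ++ (muF g i₁ ++ muF g i₂)), 96108 :: (tauN j ++ (zer ++ zer))⟩
  else if Nat.beq τ 1 then ⟨0 :: (muF g i₁ ++ (tauP j ++ muF g i₂)),
    36108 :: (zer ++ (tauN j ++ zer))⟩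
  else ⟨0 :: (muF g i₁ ++ (muF g i₂ ++ tauP j)), 36108 :: (zer ++ (zer ++ tauN j))⟩

def okMask (g m : ℕ) : Bool :=
  match g with
  | 1 => Nat.ble m 31
  | 2 => Nat.beq m 0 || Nat.beq m 2 || Nat.beq m 8 || Nat.beq m 10
  | 3 => Nat.beq m 0 || Nat.beq m 4
  | 4 => Nat.beq m 0 || Nat.beq m 8
  | _ => false

def okCode (τ g i₁ i₂ j : ℕ) : Bool :=
  Nat.ble τ 2 && okMask g i₁ && okMask g i₂ && Nat.ble j 31

def check : Tr → List Con → Bool
  | .leaf l, cs => ltV (comb l cs).1 (comb l cs).2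
  | .node τ g i₁ i₂ j l r, cs =>
    okCode τ g i₁ i₂ j && check l (baseC τ i₁ i₂ j :: cs) && check r (fullC τ g i₁ i₂ j :: cs)

theorem ev_addk (k : ℕ) : ∀ (u v : Vec) (x : ℕ → ℝ), ev (addk k u v) x = k * ev u x + ev v x
  | [], v, x => by simp [addk, ev]
  | a :: u, [], x => by
      simp only [addk, ev, ev_addk k u]
      push_cast; ring
  | a :: u, b :: v, x => by
      simp only [addk, ev, ev_addk k u]
      push_cast; ring

theorem ev_nonneg : ∀ (v : Vec) (x : ℕ → ℝ), (∀ i, 0 ≤ x i) → 0 ≤ ev v x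
  | [], x, _ => by simp [ev]
  | b :: v, x, hx => by
      have h1 := ev_nonneg v (fun i => x (i + 1)) (fun i => hx _)
      have h2 : (0 : ℝ) ≤ (b : ℝ) * x 0 := mul_nonneg (Nat.cast_nonneg b) (hx 0)
      simp only [ev]
      linarith

theorem ev_le : ∀ (u v : Vec) (x : ℕ → ℝ), (∀ i, 0 ≤ x i) → leV u v = true → ev u x ≤ ev v x
  | [], v, x, hx, _ => by
      have := ev_nonneg v x hx
      simpa only [ev] using this
  | a :: u, [], x, hx, h => by
      simp only [leV, Bool.and_eq_true] at h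
      have ha : a = 0 := Nat.eq_of_beq_eq_true h.1
      have := ev_le u [] (fun i => x (i + 1)) (fun i => hx _) h.2
      simp only [ev] at this ⊢
      rw [ha]; simpa using this
  | a :: u, b :: v, x, hx, h => by
      simp only [leV, Bool.and_eq_true] at h
      have ha : a ≤ b := Nat.le_of_ble_eq_true h.1
      have := ev_le u v (fun i => x (i + 1)) (fun i => hx _) h.2
      have h2 : (a : ℝ) * x 0 ≤ b * x 0 := mul_le_mul_of_nonneg_right (by exact_mod_cast ha) (hx 0)
      simp only [ev]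
      linarith

theorem ev_lt (u v : Vec) (x : ℕ → ℝ) (h0 : x 0 = 1) (hx : ∀ i, 0 ≤ x i) (h : ltV u v = true) :
    ev u x < ev v x := by
  match u, v, h with
  | a :: u, b :: v, h =>
    simp only [ltV, Bool.and_eq_true] at h
    have ha : a + 1 ≤ b := Nat.le_of_ble_eq_true h.1
    have := ev_le u v (fun i => x (i + 1)) (fun i => hx _) h.2
    have h2 : (a : ℝ) + 1 ≤ b := by exact_mod_cast ha
    simp only [ev, h0]
    linarith

theorem comb_holds : ∀ (l : List ℕ) (cs : List Con) (x : ℕ → ℝ), (∀ c ∈ cs, c.holds x) →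
    ev (comb l cs).2 x ≤ ev (comb l cs).1 x
  | [], cs, x, _ => by simp [comb, ev]
  | k :: ks, [], x, _ => by simp [comb, ev]
  | k :: ks, c :: cs, x, h => by
      have ih := comb_holds ks cs x (fun d hd => h d (List.mem_cons_of_mem _ hd))
      simp only [comb]
      split_ifs
      · exact ih
      · simp only [ev_addk]
        have hc : ev c.n x ≤ ev c.p x := h c List.mem_cons_self
        have : (k : ℝ) * ev c.n x ≤ k * ev c.p x := mul_le_mul_of_nonneg_left hc (by positivity)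
        linarith

/-- soundness of the certificate checker -/
theorem check_sound (x : ℕ → ℝ) (h0 : x 0 = 1) (hx : ∀ i, 0 ≤ x i)
    (H : ∀ τ g i₁ i₂ j, okCode τ g i₁ i₂ j = true →
      (baseC τ i₁ i₂ j).holds x ∨ (fullC τ g i₁ i₂ j).holds x) :
    ∀ (t : Tr) (cs : List Con), (∀ c ∈ cs, c.holds x) → check t cs = true → False
  | .leaf l, cs, hc, h => by
      simp only [check] at h
      have h1 := ev_lt _ _ x h0 hx h
      have h2 := comb_holds l cs x hc
      linarith
  | .node τ g i₁ i₂ j l r, cs, hc, h => by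
      simp only [check, Bool.and_eq_true] at h
      rcases H τ g i₁ i₂ j h.1.1 with hb | hf
      · exact check_sound x h0 hx H l _ (by
          intro c hcm; rcases List.mem_cons.mp hcm with rfl | h'
          · exact hb
          · exact hc c h') h.1.2
      · exact check_sound x h0 hx H r _ (by
          intro c hcm; rcases List.mem_cons.mp hcm with rfl | h'
          · exact hf
          · exact hc c h') h.2

/-- the constraints of the polytope: sizes, tails, total radical -/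
def poly : List Con :=
  [ ⟨[1], 0 :: ([1,2,3,4,0,1] : Vec)⟩,
    ⟨0 :: ([0,0,0,0,0,1] : Vec), 0 :: ([0,0,0,0,5,0] : Vec)⟩,
    ⟨[1], 0 :: (zer ++ [1,2,3,4,0,1])⟩,
    ⟨0 :: (zer ++ [10000,20000,30000,40000,0,10000]), [9999]⟩,
    ⟨0 :: (zer ++ [0,0,0,0,0,1]), 0 :: (zer ++ [0,0,0,0,5,0])⟩,
    ⟨[1], 0 :: (zer ++ (zer ++ [1,2,3,4,0,1]))⟩,
    ⟨0 :: (zer ++ (zer ++ [10000,20000,30000,40000,0,10000])), [9999]⟩,
    ⟨0 :: (zer ++ (zer ++ [0,0,0,0,0,1])), 0 :: (zer ++ (zer ++ [0,0,0,0,5,0]))⟩,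
    ⟨[1], 0 :: ([1,1,1,1,1,0] ++ ([1,1,1,1,1,0] ++ [1,1,1,1,1,0]))⟩ ]

end Pool.Agent.H335R2.Abc
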