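import Pool.Agent.H335R2.Abc.Parts
import Pool.Agent.H335R2.Abc.LP

set_option autoImplicit false

open Finset

namespace Pool.Agent.H335R2.Abc

/-- the set of classes coded by a bit mask -/
def SS (m : ℕ) : Finset ℕ := U.filter (fun k => m.testBit (k - 1) = true)

/-- the data vector of a triple -/
noncomputable def xv (a b c : ℕ) (L : ℝ) : ℕ → ℝ
  | 0 => 1
  | 1 => rd 1 a / L
  | 2 => rd 2 a / L
  | 3 => rd 3 a / L
  | 4 => rd 4 a / L
  | 5 => rd 5 a / L
  | 6 => sz 5 a / L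
  | 7 => rd 1 b / L
  | 8 => rd 2 b / L
  | 9 => rd 3 b / L
  | 10 => rd 4 b / L
  | 11 => rd 5 b / L
  | 12 => sz 5 b / L
  | 13 => rd 1 c / L
  | 14 => rd 2 c / L
  | 15 => rd 3 c / L
  | 16 => rd 4 c / L
  | 17 => rd 5 c / L
  | 18 => sz 5 c / L
  | _ => 0

theorem bit_le (m k : ℕ) : bit m k ≤ 1 := by unfold bit; split_ifs <;> simp

theorem cast_one_sub_bit (m k : ℕ) : ((1 - bit m k : ℕ) : ℝ) = 1 - (bit m k : ℝ) := by
  rw [Nat.cast_sub (bit_le m k)]; simp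

theorem sum_SS (m : ℕ) (f : ℕ → ℝ) : ∑ k ∈ SS m, f k =
    bit m 0 * f 1 + bit m 1 * f 2 + bit m 2 * f 3 + bit m 3 * f 4 + bit m 4 * f 5 := by
  unfold SS
  rw [Finset.sum_filter]
  simp only [U]
  rw [Finset.sum_insert (by decide), Finset.sum_insert (by decide), Finset.sum_insert (by decide),
    Finset.sum_insert (by decide), Finset.sum_singleton]
  have h : ∀ k, (if m.testBit (k + 1 - 1) = true then f (k + 1) else 0) = (bit m k : ℝ) * f (k + 1) := by
    intro k; unfold bit; simp only [Nat.add_sub_cancel]; split_ifs <;> simp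
  have h0 := h 0
  have h1 := h 1
  have h2 := h 2
  have h3 := h 3
  have h4 := h 4
  norm_num at h0 h1 h2 h3 h4 ⊢
  rw [h0, h1, h2, h3, h4]; ring

theorem sum_USS (m : ℕ) (f : ℕ → ℝ) : ∑ k ∈ U \ SS m, f k =
    (1 - bit m 0) * f 1 + (1 - bit m 1) * f 2 + (1 - bit m 2) * f 3 + (1 - bit m 3) * f 4
      + (1 - bit m 4) * f 5 := by
  have h : ∑ k ∈ U \ SS m, f k + ∑ k ∈ SS m, f k = ∑ k ∈ U, f k :=
    Finset.sum_sdiff (Finset.filter_subset _ _)
  have hU : ∑ k ∈ U, f k = f 1 + f 2 + f 3 + f 4 + f 5 := by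
    simp only [U]
    rw [Finset.sum_insert (by decide), Finset.sum_insert (by decide), Finset.sum_insert (by decide),
      Finset.sum_insert (by decide), Finset.sum_singleton]; ring
  rw [sum_SS, hU] at h
  linarith

/-- logarithm of the modulus cost etc. -/
noncomputable def lbase (i₁ i₂ j x y z : ℕ) : ℝ :=
  ∑ k ∈ SS j, rd k z + ∑ k ∈ U \ SS i₁, rd k x + ∑ k ∈ U \ SS i₂, rd k y

noncomputable def lfull (g i₁ i₂ j x y z : ℕ) (lw : ℝ) : ℝ :=
  lbase i₁ i₂ j x y z + (lw + (∑ k ∈ SS i₁, sz k x) / g + (∑ k ∈ SS i₂, sz k y) / g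
    - ∑ k ∈ SS j, sz k z)

theorem sz_SS (m n : ℕ) : ∑ k ∈ SS m, sz k n =
    bit m 0 * rd 1 n + 2 * bit m 1 * rd 2 n + 3 * bit m 2 * rd 3 n + 4 * bit m 3 * rd 4 n
      + bit m 4 * sz 5 n := by
  rw [sum_SS, sz_eq 1 n (by norm_num), sz_eq 2 n (by norm_num), sz_eq 3 n (by norm_num),
    sz_eq 4 n (by norm_num)]
  push_cast; ring

section
variable (a b c : ℕ) (L : ℝ)

theorem base2 (hL : 0 < L) (i₁ i₂ j : ℕ) (h : 0.6018 * L ≤ lbase i₁ i₂ j a b c) :
    (baseC 2 i₁ i₂ j).holds (xv a b c L) := by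
  have h' : 0.6018 ≤ lbase i₁ i₂ j a b c / L := by rwa [le_div_iff₀ hL]
  unfold lbase at h'
  rw [sum_SS, sum_USS, sum_USS] at h'
  simp only [Con.holds, baseC, Nat.beq, Bool.false_eq_true, if_false, muB, tauP, SC,
    List.cons_append, List.nil_append, ev, xv]
  push_cast [cast_one_sub_bit]
  field_simp at h' ⊢
  linarith

theorem base1 (hL : 0 < L) (i₁ i₂ j : ℕ) (h : 0.6018 * L ≤ lbase i₁ i₂ j a c b) :
    (baseC 1 i₁ i₂ j).holds (xv a b c L) := by
  have h' : 0.6018 ≤ lbase i₁ i₂ j a c b / L := by rwa [le_div_iff₀ hL]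
  unfold lbase at h'
  rw [sum_SS, sum_USS, sum_USS] at h'
  simp only [Con.holds, baseC, Nat.beq, Bool.false_eq_true, if_false, if_true, muB, tauP, SC,
    List.cons_append, List.nil_append, ev, xv]
  push_cast [cast_one_sub_bit]
  field_simp at h' ⊢
  linarith

theorem base0 (hL : 0 < L) (i₁ i₂ j : ℕ) (h : 0.6018 * L ≤ lbase i₁ i₂ j b c a) :
    (baseC 0 i₁ i₂ j).holds (xv a b c L) := by
  have h' : 0.6018 ≤ lbase i₁ i₂ j b c a / L := by rwa [le_div_iff₀ hL]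
  unfold lbase at h'
  rw [sum_SS, sum_USS, sum_USS] at h'
  simp only [Con.holds, baseC, Nat.beq, Bool.false_eq_true, if_false, if_true, muB, tauP, SC,
    List.cons_append, List.nil_append, ev, xv]
  push_cast [cast_one_sub_bit]
  field_simp at h' ⊢
  linarith

theorem full2 (hL : 0 < L) (g i₁ i₂ j : ℕ) (hg1 : 1 ≤ g) (hg4 : g ≤ 4)
    (h : 0.6018 * L ≤ lfull g i₁ i₂ j a b c 0) :
    (fullC 2 g i₁ i₂ j).holds (xv a b c L) := by
  have h' : 0.6018 ≤ lfull g i₁ i₂ j a b c 0 / L := by rwa [le_div_iff₀ hL]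
  unfold lfull lbase at h'
  rw [sum_SS, sum_USS, sum_USS, sz_SS, sz_SS, sz_SS] at h'
  simp only [Con.holds, fullC, Nat.beq, Bool.false_eq_true, if_false, if_true, muF, tauP, tauN,
    zer, SC, List.cons_append, List.nil_append, ev, xv]
  interval_cases g <;> norm_num at h' ⊢ <;> push_cast [cast_one_sub_bit] <;> field_simp at h' ⊢ <;>
    linarith

theorem full1 (hL : 0 < L) (g i₁ i₂ j : ℕ) (hg1 : 1 ≤ g) (hg4 : g ≤ 4)
    (h : 0.6018 * L ≤ lfull g i₁ i₂ j a c b 0) :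
    (fullC 1 g i₁ i₂ j).holds (xv a b c L) := by
  have h' : 0.6018 ≤ lfull g i₁ i₂ j a c b 0 / L := by rwa [le_div_iff₀ hL]
  unfold lfull lbase at h'
  rw [sum_SS, sum_USS, sum_USS, sz_SS, sz_SS, sz_SS] at h'
  simp only [Con.holds, fullC, Nat.beq, Bool.false_eq_true, if_false, if_true, muF, tauP, tauN,
    zer, SC, List.cons_append, List.nil_append, ev, xv]
  interval_cases g <;> norm_num at h' ⊢ <;> push_cast [cast_one_sub_bit] <;> field_simp at h' ⊢ <;>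
    linarith

theorem full0 (hL : 0 < L) (g i₁ i₂ j : ℕ) (hg1 : 1 ≤ g) (hg4 : g ≤ 4)
    (h : 0.6018 * L ≤ lfull g i₁ i₂ j b c a
      ((rd 1 a + 2 * rd 2 a + 3 * rd 3 a + 4 * rd 4 a + sz 5 a) - L)) :
    (fullC 0 g i₁ i₂ j).holds (xv a b c L) := by
  have h' : 0.6018 ≤ lfull g i₁ i₂ j b c a
      ((rd 1 a + 2 * rd 2 a + 3 * rd 3 a + 4 * rd 4 a + sz 5 a) - L) / L := by rwa [le_div_iff₀ hL]
  unfold lfull lbase at h'
  rw [sum_SS, sum_USS, sum_USS, sz_SS, sz_SS, sz_SS] at h'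
  simp only [Con.holds, fullC, Nat.beq, Bool.false_eq_true, if_false, if_true, muF, tauP, tauPA,
    tauN, zer, SC, List.cons_append, List.nil_append, ev, xv]
  interval_cases g <;> norm_num at h' ⊢ <;> push_cast [cast_one_sub_bit] <;> field_simp at h' ⊢ <;>
    linarith

end

end Pool.Agent.H335R2.Abc
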