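import Pool.Agent.H335R2.Abc.Defs

set_option autoImplicit false

open Finset

namespace Pool.Agent.H335R2.Abc

/-! T1: fibre lemma -/
theorem fiber_card (g m V : ℕ) (hm : 0 < m) (S : Finset (ℕ × ℕ)) (t ℓ : ℝ) (hℓ : 0 ≤ ℓ)
    (hpos : ∀ q ∈ S, 0 < q.1 ∧ 0 < q.2 ∧ q.2 ≤ V)
    (hcop : ∀ q ∈ S, Nat.Coprime q.1 q.2 ∧ Nat.Coprime m q.1 ∧ Nat.Coprime m q.2)
    (hrat : ∀ q ∈ S, t ≤ (q.1 : ℝ) / q.2 ∧ (q.1 : ℝ) / q.2 ≤ t + ℓ)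
    (hmod : ∀ q ∈ S, ∀ q' ∈ S, (q.1 * q'.2) ^ g ≡ (q'.1 * q.2) ^ g [MOD m]) :
    (S.card : ℝ) ≤ nroots g m * (1 + ℓ * V ^ 2 / m) := sorry

/-! T3: number of roots of unity -/
theorem nroots_bound (g : ℕ) (hg : 1 ≤ g) (ε : ℝ) (hε : 0 < ε) :
    ∃ C : ℝ, 0 < C ∧ ∀ m : ℕ, 1 ≤ m → (nroots g m : ℝ) ≤ C * (m : ℝ) ^ ε := sorry

/-! T4: sum of reciprocals of radicals -/
theorem sum_inv_rad (ε : ℝ) (hε : 0 < ε) :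
    ∃ C : ℝ, 0 < C ∧ ∀ X : ℕ, 1 ≤ X → ∑ n ∈ Icc 1 X, (1 : ℝ) / rad n ≤ C * (X : ℝ) ^ ε := sorry

/-! T5: parts -/
theorem part_pos (S : Finset ℕ) (n : ℕ) : 0 < part S n := sorry
theorem rpart_pos (S : Finset ℕ) (n : ℕ) : 0 < rpart S n := sorry
theorem gpart_pos (g : ℕ) (S : Finset ℕ) (n : ℕ) : 0 < gpart g S n := sorry
theorem part_dvd (S : Finset ℕ) (n : ℕ) : part S n ∣ n := sorry
theorem rpart_dvd (S : Finset ℕ) (n : ℕ) : rpart S n ∣ n := sorry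
theorem gpart_dvd (g : ℕ) (S : Finset ℕ) (n : ℕ) : gpart g S n ∣ n := sorry
theorem part_mul (S : Finset ℕ) (n : ℕ) (hn : n ≠ 0) : part (U \ S) n * part S n = n := sorry
theorem rad_part (S : Finset ℕ) (n : ℕ) : rad (part S n) = rpart S n := sorry
theorem gpart_pow (g : ℕ) (S : Finset ℕ) (hS : Valid g S) (n : ℕ) : gpart g S n ^ g = part S n := sorry
theorem log_part (S : Finset ℕ) (n : ℕ) : Real.log (part S n) = ∑ k ∈ S, sz k n := sorry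
theorem log_rpart (S : Finset ℕ) (n : ℕ) : Real.log (rpart S n) = ∑ k ∈ S, rd k n := sorry
theorem log_gpart (g : ℕ) (S : Finset ℕ) (hS : Valid g S) (n : ℕ) :
    Real.log (gpart g S n) = (∑ k ∈ S, sz k n) / g := sorry
theorem log_eq (n : ℕ) (hn : n ≠ 0) : Real.log n = ∑ k ∈ U, sz k n := sorry
theorem log_rad (n : ℕ) : Real.log (rad n) = ∑ k ∈ U, rd k n := sorry
theorem sz_eq (k n : ℕ) (hk : k ≤ 4) : sz k n = k * rd k n := sorry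
theorem sz_ge (n : ℕ) : 5 * rd 5 n ≤ sz 5 n := sorry
theorem rd_nonneg (k n : ℕ) : 0 ≤ rd k n := sorry
theorem rad_mul3 (a b c : ℕ) (hab : Nat.Coprime a b) (hac : Nat.Coprime a c) (hbc : Nat.Coprime b c)
    (ha : a ≠ 0) (hb : b ≠ 0) (hc : c ≠ 0) :
    rad (a * b * c) = rad a * rad b * rad c := sorry

/-! T6: the counting lemma, without and with the archimedean factor -/
theorem count_noarch (g : ℕ) (I₁ I₂ J : Finset ℕ) (hg : 1 ≤ g) (h₁ : Valid g I₁) (h₂ : Valid g I₂)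
    (ε : ℝ) (hε : 0 < ε) :
    ∃ C : ℝ, 0 < C ∧ ∀ X : ℕ, 1 ≤ X → ∀ Y : ℝ, 0 < Y → ∀ T : Finset (ℕ × ℕ × ℕ),
      (∀ t ∈ T, 0 < t.1 ∧ 0 < t.2.1 ∧ 0 < t.2.2 ∧ t.1 ≤ X ∧ t.2.1 ≤ X ∧ t.2.2 ≤ X ∧
        Nat.Coprime t.1 t.2.1 ∧ Nat.Coprime t.2.2 t.1 ∧ Nat.Coprime t.2.2 t.2.1) →
      ((∀ t ∈ T, t.1 + t.2.1 = t.2.2) ∨ (∀ t ∈ T, t.2.2 + t.1 = t.2.1)) →
      (∀ t ∈ T, Q g I₁ I₂ J 1 t.1 t.2.1 t.2.2 ≤ Y) →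
      (T.card : ℝ) ≤ C * Y * (X : ℝ) ^ ε := sorry

theorem count_arch (g : ℕ) (I₁ I₂ J : Finset ℕ) (hg : 1 ≤ g) (h₁ : Valid g I₁) (h₂ : Valid g I₂)
    (ε : ℝ) (hε : 0 < ε) :
    ∃ C : ℝ, 0 < C ∧ ∀ X : ℕ, 1 ≤ X → ∀ Y : ℝ, 0 < Y → ∀ T : Finset (ℕ × ℕ × ℕ),
      (∀ t ∈ T, 0 < t.1 ∧ 0 < t.2.1 ∧ 0 < t.2.2 ∧ t.1 ≤ X ∧ t.2.1 ≤ X ∧ t.2.2 ≤ X ∧
        Nat.Coprime t.1 t.2.1 ∧ Nat.Coprime t.2.2 t.1 ∧ Nat.Coprime t.2.2 t.2.1) →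
      (∀ t ∈ T, t.2.2 + t.1 = t.2.1 ∧ t.2.2 ≤ t.1) →
      (∀ t ∈ T, Q g I₁ I₂ J ((t.2.2 : ℝ) / t.2.1) t.1 t.2.1 t.2.2 ≤ Y) →
      (T.card : ℝ) ≤ C * Y * (X : ℝ) ^ ε := sorry

end Pool.Agent.H335R2.Abc
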